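import Pool.Agent.H541R2.SC.Comb

/-!
# Local consistency along sequences of bags: induction
-/

namespace H541R2.SC

open Finset

open Classical in
theorem cl_static {g L b : ℕ} {C : J → ℕ → ZMod 2} (hCF : CF g L (2 * b) C) {m : ℕ}
    (ih : Cl g L C b m) {l : ℕ} {k : J} (hl : m + 1 ≤ l) (hk : LJ g L l k) (U : Finset D)
    (hU : U.card ≤ b) (hUT : ∀ v ∈ U, ¬ InT l k v) :
    ∃ X : D → ZMod 2, Fam g L C (m + 1) l k U X ∧ ∀ v ∈ U, X v = 0 := by
  obtain ⟨K, Y, hK, hY, hYg, hYF⟩ := step hCF (by omega : 1 ≤ l) hk U (by omega) hUT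
  have h1 : ∀ k' : J, ∃ W : ℕ → D → ZMod 2, k' ∈ K → (∀ i, Fam g L C m (l - 1) k' U (W i)) ∧
      (∀ i, ∀ v ∈ U, W i v = 0) := by
    intro k'
    by_cases hk' : k' ∈ K
    · obtain ⟨W, hW1, hW2, -, -⟩ := ih (l - 1) k' (by omega) (hK k' hk').1 U (fun _ => U)
        (fun _ => subset_rfl) (fun _ => hU) (fun _ => by simp) rfl ⟨0, fun _ _ => rfl⟩
        (hK k' hk').2
      exact ⟨W, fun _ => ⟨hW1, hW2⟩⟩
    · exact ⟨fun _ _ => 0, fun h => absurd h hk'⟩
  choose W hW using h1
  refine ⟨comb l Y K (fun k' => W k' 0), ?_, ?_⟩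
  · exact fam_comb hl hk (fun j hj => (hK j hj).1) hY hYg (fun v hv => Or.inl hv)
      (fun k' hk' => (hW k' hk').1 0)
  · rintro ⟨j, l', i⟩ hv
    have h2 : ∑ k' ∈ K, W k' 0 (j, l', i) = 0 :=
      Finset.sum_eq_zero (fun k' hk' => (hW k' hk').2 0 _ hv)
    simp only [comb, h2, add_zero]
    split_ifs with h
    · subst h
      exact hYF j i hv
    · rfl

open Classical in
theorem cl_block {g L b : ℕ} {C : J → ℕ → ZMod 2} (hCF : CF g L (2 * b) C) {m : ℕ}
    (ih : Cl g L C b m) {l : ℕ} {k : J} (hl : m + 1 ≤ l) (hk : LJ g L l k) {S : Finset D}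
    {B : ℕ → Finset D} (hSB : ∀ i, S ⊆ B i) (hb : ∀ i, (B i).card ≤ b)
    (hBS : ∀ i, (B i \ S).card ≤ m + 1) (h0 : B 0 = S)
    (hST : ∀ v ∈ S, ¬ InT l k v) (a c : ℕ) (hac : a + 1 < c)
    (ha : ∀ v ∈ B a, ¬ InT l k v) (hc : ∀ v ∈ B c, ¬ InT l k v)
    (hj : ∀ j, a < j → j < c → ∃ v ∈ B j, InT l k v) :
    ∃ X : ℕ → D → ZMod 2,
      (∀ j, a < j → j < c → Fam g L C (m + 1) l k (B j) (X j)) ∧
      (∀ j, ∀ v ∈ S, X j v = 0) ∧
      (∀ j, a < j → j + 1 < c → ∀ v ∈ B j, v ∈ B (j + 1) → X j v = X (j + 1) v) ∧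
      (∀ v ∈ B a, v ∈ B (a + 1) → X (a + 1) v = 0) ∧
      (∀ v ∈ B (c - 1), v ∈ B c → X (c - 1) v = 0) := by
  set B' : ℕ → Finset D := fun j => if a < j ∧ j < c then (B j).filter (fun v => ¬ InT l k v)
    else if j = a then B a ∩ B (a + 1) else if j = c then B (c - 1) ∩ B c else S with hB'
  have eIn : ∀ j, a < j → j < c → B' j = (B j).filter (fun v => ¬ InT l k v) := by
    intro j h1 h2
    simp [hB', h1, h2]
  have eA : B' a = B a ∩ B (a + 1) := by
    simp [hB']
  have eC : B' c = B (c - 1) ∩ B c := by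
    have : c ≠ a := by omega
    simp [hB', this]
  have eOut : ∀ j, (j < a ∨ c < j) → B' j = S := by
    intro j h
    have h1 : ¬ (a < j ∧ j < c) := by omega
    have h2 : j ≠ a := by omega
    have h3 : j ≠ c := by omega
    simp only [hB', h1, h2, h3, if_false]
  have hcases : ∀ j, (a < j ∧ j < c) ∨ j = a ∨ j = c ∨ (j < a ∨ c < j) := by
    intro j; omega
  have hfil : ∀ j, a < j → j < c → ((B j).filter (fun v => ¬ InT l k v) \ S).card ≤ m := by
    intro j h1 h2
    obtain ⟨v, hv, hT⟩ := hj j h1 h2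
    have hvS : v ∉ S := fun h => hST v h hT
    have h3 : (B j).filter (fun v => ¬ InT l k v) \ S ⊆ (B j \ S).erase v := by
      intro u hu
      rw [Finset.mem_sdiff, Finset.mem_filter] at hu
      rw [Finset.mem_erase, Finset.mem_sdiff]
      refine ⟨?_, hu.1.1, hu.2⟩
      rintro rfl
      exact hu.1.2 hT
    have h4 := Finset.card_le_card h3
    rw [Finset.card_erase_of_mem (Finset.mem_sdiff.2 ⟨hv, hvS⟩)] at h4
    have h5 := hBS j
    omega
  have hAsub : B' a ⊆ (B (a + 1)).filter (fun v => ¬ InT l k v) := by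
    rw [eA]
    intro v hv
    rw [Finset.mem_inter] at hv
    exact Finset.mem_filter.2 ⟨hv.2, ha v hv.1⟩
  have hCsub : B' c ⊆ (B (c - 1)).filter (fun v => ¬ InT l k v) := by
    rw [eC]
    intro v hv
    rw [Finset.mem_inter] at hv
    exact Finset.mem_filter.2 ⟨hv.1, hc v hv.2⟩
  have hSB' : ∀ j, S ⊆ B' j := by
    intro j
    rcases hcases j with h | rfl | rfl | h
    · rw [eIn j h.1 h.2]
      intro v hv
      exact Finset.mem_filter.2 ⟨hSB j hv, hST v hv⟩
    · rw [eA]; exact Finset.subset_inter (hSB _) (hSB _)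
    · rw [eC]; exact Finset.subset_inter (hSB _) (hSB _)
    · rw [eOut j h]
  have hb' : ∀ j, (B' j).card ≤ b := by
    intro j
    rcases hcases j with h | rfl | rfl | h
    · rw [eIn j h.1 h.2]
      exact (Finset.card_le_card (Finset.filter_subset _ _)).trans (hb j)
    · rw [eA]; exact (Finset.card_le_card Finset.inter_subset_left).trans (hb _)
    · rw [eC]; exact (Finset.card_le_card Finset.inter_subset_left).trans (hb _)
    · rw [eOut j h]
      exact (Finset.card_le_card (hSB 0)).trans (hb 0)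
  have hBS' : ∀ j, (B' j \ S).card ≤ m := by
    intro j
    rcases hcases j with h | rfl | rfl | h
    · rw [eIn j h.1 h.2]; exact hfil j h.1 h.2
    · exact (Finset.card_le_card (Finset.sdiff_subset_sdiff hAsub subset_rfl)).trans
        (hfil _ (by omega) (by omega))
    · exact (Finset.card_le_card (Finset.sdiff_subset_sdiff hCsub subset_rfl)).trans
        (hfil _ (by omega) (by omega))
    · rw [eOut j h]; simp
  have h0' : B' 0 = S := by
    rcases hcases 0 with h | h | h | h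
    · omega
    · rw [h, eA, ← h, h0]
      exact Finset.inter_eq_left.2 (hSB _)
    · omega
    · exact eOut 0 h
  have hev : ∃ r, ∀ i, r ≤ i → B' i = S := ⟨c + 1, fun i hi => eOut i (by omega)⟩
  set F : Finset D := B' a ∪ B' c with hF
  have hFc : F.card ≤ 2 * b := by
    have h9 : F.card ≤ (B' a).card + (B' c).card := Finset.card_union_le _ _
    have := hb' a
    have := hb' c
    omega
  have hFT : ∀ v ∈ F, ¬ InT l k v := by
    intro v hv
    rw [hF, Finset.mem_union] at hv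
    rcases hv with h | h
    · exact (Finset.mem_filter.1 (hAsub h)).2
    · exact (Finset.mem_filter.1 (hCsub h)).2
  obtain ⟨K, Y, hK, hY, hYg, hYF⟩ := step hCF (by omega : 1 ≤ l) hk F hFc hFT
  have h1 : ∀ k' : J, ∃ W : ℕ → D → ZMod 2, k' ∈ K →
      (∀ i, Fam g L C m (l - 1) k' (B' i) (W i)) ∧
      (∀ i, ∀ v ∈ S, W i v = 0) ∧
      (∀ i, ∀ v ∈ B' i, v ∈ B' (i + 1) → W i v = W (i + 1) v) ∧
      (∀ i, (∀ v ∈ B' i, ¬ InT (l - 1) k' v) → ∀ v ∈ B' i, W i v = 0) := by
    intro k'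
    by_cases hk' : k' ∈ K
    · obtain ⟨W, hW⟩ := ih (l - 1) k' (by omega) (hK k' hk').1 S B' hSB' hb' hBS' h0' hev
        (fun v hv => (hK k' hk').2 v (Finset.mem_union_left _ (hSB' a hv)))
      exact ⟨W, fun _ => hW⟩
    · exact ⟨fun _ _ => 0, fun h => absurd h hk'⟩
  choose W hW using h1
  have hWa : ∀ k' ∈ K, ∀ v ∈ B' a, W k' a v = 0 := fun k' hk' =>
    (hW k' hk').2.2.2 a (fun v hv => (hK k' hk').2 v (Finset.mem_union_left _ hv))
  have hWc : ∀ k' ∈ K, ∀ v ∈ B' c, W k' c v = 0 := fun k' hk' =>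
    (hW k' hk').2.2.2 c (fun v hv => (hK k' hk').2 v (Finset.mem_union_right _ hv))
  have hYzero : ∀ v ∈ F, (if v.2.1 = l then Y v.1 v.2.2 else 0) = 0 := by
    rintro ⟨j, l', i⟩ hv
    simp only
    split_ifs with h
    · subst h
      exact hYF j i hv
    · rfl
  refine ⟨fun j => comb l Y K (fun k' => W k' j), ?_, ?_, ?_, ?_, ?_⟩
  · intro j h1 h2
    refine fam_comb (B' := B' j) hl hk (fun j hj => (hK j hj).1) hY hYg ?_
      (fun k' hk' => (hW k' hk').1 j)
    intro v hv
    by_cases hT : InT l k v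
    · exact Or.inr hT.2
    · left
      rw [eIn j h1 h2]
      exact Finset.mem_filter.2 ⟨hv, hT⟩
  · intro j v hv
    have hvF : v ∈ F := Finset.mem_union_left _ (hSB' a hv)
    simp only [comb, hYzero v hvF, zero_add]
    exact Finset.sum_eq_zero (fun k' hk' => (hW k' hk').2.1 j v hv)
  · intro j h1 h2 v hv hv'
    simp only [comb]
    congr 1
    by_cases hT : InT l k v
    · have h3 : ∀ j', ∑ k' ∈ K, W k' j' v = 0 := by
        intro j'
        apply Finset.sum_eq_zero
        intro k' hk'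
        exact ((hW k' hk').1 j').above v (by rw [hT.2]; omega)
      rw [h3, h3]
    · apply Finset.sum_congr rfl
      intro k' hk'
      refine (hW k' hk').2.2.1 j v ?_ ?_
      · rw [eIn j h1 (by omega)]; exact Finset.mem_filter.2 ⟨hv, hT⟩
      · rw [eIn (j + 1) (by omega) h2]; exact Finset.mem_filter.2 ⟨hv', hT⟩
  · intro v hv hv'
    have hva : v ∈ B' a := by rw [eA]; exact Finset.mem_inter.2 ⟨hv, hv'⟩
    have hva' : v ∈ B' (a + 1) := by
      rw [eIn (a + 1) (by omega) hac]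
      exact hAsub hva
    simp only [comb, hYzero v (Finset.mem_union_left _ hva), zero_add]
    apply Finset.sum_eq_zero
    intro k' hk'
    rw [← (hW k' hk').2.2.1 a v hva hva']
    exact hWa k' hk' v hva
  · intro v hv hv'
    have hvc : v ∈ B' c := by rw [eC]; exact Finset.mem_inter.2 ⟨hv, hv'⟩
    have hvc' : v ∈ B' (c - 1) := by
      rw [eIn (c - 1) (by omega) (by omega)]
      exact hCsub hvc
    have hc1 : c - 1 + 1 = c := by omega
    simp only [comb, hYzero v (Finset.mem_union_right _ hvc), zero_add]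
    apply Finset.sum_eq_zero
    intro k' hk'
    rw [(hW k' hk').2.2.1 (c - 1) v hvc' (by rw [hc1]; exact hvc), hc1]
    exact hWc k' hk' v hvc

open Classical in
theorem cl_succ {g L b : ℕ} {C : J → ℕ → ZMod 2} (hCF : CF g L (2 * b) C) {m : ℕ}
    (ih : Cl g L C b m) : Cl g L C b (m + 1) := by
  intro l k hl hk S B hSB hb hBS h0 hev hST
  -- static families
  have hstat : ∀ U : Finset D, ∃ X : D → ZMod 2, U.card ≤ b → (∀ v ∈ U, ¬ InT l k v) →
      Fam g L C (m + 1) l k U X ∧ ∀ v ∈ U, X v = 0 := by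
    intro U
    by_cases h : U.card ≤ b ∧ (∀ v ∈ U, ¬ InT l k v)
    · obtain ⟨X, hX⟩ := cl_static hCF ih hl hk U h.1 h.2
      exact ⟨X, fun _ _ => hX⟩
    · exact ⟨fun _ => 0, fun h1 h2 => absurd ⟨h1, h2⟩ h⟩
  choose XS hXS using hstat
  set N : ℕ → Prop := fun i => ∀ v ∈ B i, ¬ InT l k v with hN
  have hN' : ∀ i, ¬ N i → ∃ v ∈ B i, InT l k v := by
    intro i h
    simp only [hN] at h
    push Not at h
    exact h
  have hN0 : N 0 := by
    simp only [hN, h0]; exact hST
  set Run : ℕ → ℕ → ℕ → Prop := fun a c i => a < i ∧ i < c ∧ N a ∧ N c ∧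
    ∀ j, a < j → j < c → ¬ N j with hRun
  have hblock : ∀ a c : ℕ, ∃ X : ℕ → D → ZMod 2, (∃ i, Run a c i) →
      (∀ j, a < j → j < c → Fam g L C (m + 1) l k (B j) (X j)) ∧
      (∀ j, ∀ v ∈ S, X j v = 0) ∧
      (∀ j, a < j → j + 1 < c → ∀ v ∈ B j, v ∈ B (j + 1) → X j v = X (j + 1) v) ∧
      (∀ v ∈ B a, v ∈ B (a + 1) → X (a + 1) v = 0) ∧
      (∀ v ∈ B (c - 1), v ∈ B c → X (c - 1) v = 0) := by
    intro a c
    by_cases h : ∃ i, Run a c i
    · obtain ⟨i, h1, h2, h3, h4, h5⟩ := h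
      obtain ⟨X, hX⟩ := cl_block hCF ih hl hk hSB hb hBS h0 hST a c (by omega) h3 h4
        (fun j h6 h7 => hN' j (h5 j h6 h7))
      exact ⟨X, fun _ => hX⟩
    · exact ⟨fun _ _ => 0, fun h' => absurd h' h⟩
  choose XB hXB using hblock
  have hrun : ∀ i, ¬ N i → ∃ a c, Run a c i := by
    intro i hi
    obtain ⟨r, hr⟩ := hev
    have hex : ∃ j, i < j ∧ N j := by
      refine ⟨max (i + 1) r, lt_of_lt_of_le (Nat.lt_succ_self i) (le_max_left _ _), ?_⟩
      simp only [hN]
      rw [hr _ (le_max_right _ _)]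
      exact hST
    have h1 := Nat.find_spec hex
    have h2 : N (Nat.findGreatest N i) := Nat.findGreatest_spec (Nat.zero_le i) hN0
    have h3 : Nat.findGreatest N i ≤ i := Nat.findGreatest_le i
    have h4 : Nat.findGreatest N i ≠ i := by
      intro h
      rw [h] at h2
      exact hi h2
    refine ⟨Nat.findGreatest N i, Nat.find hex, by omega, h1.1, h2, h1.2, ?_⟩
    intro j hj1 hj2 hNj
    by_cases hji : j ≤ i
    · exact Nat.findGreatest_is_greatest hj1 hji hNj
    · exact Nat.find_min hex hj2 ⟨by omega, hNj⟩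
  have hab : ∀ i, ∃ p : ℕ × ℕ, ¬ N i → Run p.1 p.2 i := by
    intro i
    by_cases h : N i
    · exact ⟨(0, 0), fun h' => absurd h h'⟩
    · obtain ⟨a, c, h'⟩ := hrun i h
      exact ⟨(a, c), fun _ => h'⟩
  choose P hP using hab
  have huniq : ∀ i, ¬ N i → ¬ N (i + 1) → P i = P (i + 1) := by
    intro i h1 h2
    obtain ⟨a1, a2, a3, a4, a5⟩ := hP i h1
    obtain ⟨c1, c2, c3, c4, c5⟩ := hP (i + 1) h2
    have e1 : (P i).1 = (P (i + 1)).1 := by
      have h3 : (P (i + 1)).1 ≠ i := by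
        intro h; rw [h] at c3; exact h1 c3
      rcases lt_trichotomy (P i).1 (P (i + 1)).1 with h | h | h
      · exact absurd c3 (a5 _ h (by omega))
      · exact h
      · exact absurd a3 (c5 _ h (by omega))
    have e2 : (P i).2 = (P (i + 1)).2 := by
      have h3 : (P i).2 ≠ i + 1 := by
        intro h; rw [h] at a4; exact h2 a4
      rcases lt_trichotomy (P i).2 (P (i + 1)).2 with h | h | h
      · exact absurd a4 (c5 _ (by omega) h)
      · exact h
      · exact absurd c4 (a5 _ (by omega) h)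
    exact Prod.ext e1 e2
  have hstart : ∀ i, N i → ¬ N (i + 1) → (P (i + 1)).1 = i := by
    intro i h1 h2
    obtain ⟨c1, c2, c3, c4, c5⟩ := hP (i + 1) h2
    by_contra h
    exact c5 i (by omega) (by omega) h1
  have hend : ∀ i, ¬ N i → N (i + 1) → (P i).2 = i + 1 := by
    intro i h1 h2
    obtain ⟨c1, c2, c3, c4, c5⟩ := hP i h1
    by_contra h
    exact c5 (i + 1) (by omega) (by omega) h2
  set X : ℕ → D → ZMod 2 := fun i => if N i then XS (B i) else XB (P i).1 (P i).2 i with hX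
  have hXN : ∀ i, N i → X i = XS (B i) := fun i h => by simp only [hX, h, if_true]
  have hXH : ∀ i, ¬ N i → X i = XB (P i).1 (P i).2 i := fun i h => by
    simp only [hX, h, if_false]
  refine ⟨X, ?_, ?_, ?_, ?_⟩
  · intro i
    by_cases h : N i
    · rw [hXN i h]
      exact (hXS (B i) (hb i) h).1
    · rw [hXH i h]
      obtain ⟨h1, h2, -⟩ := hP i h
      exact (hXB _ _ ⟨i, hP i h⟩).1 i h1 h2
  · intro i v hv
    by_cases h : N i
    · rw [hXN i h]
      exact (hXS (B i) (hb i) h).2 v (hSB i hv)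
    · rw [hXH i h]
      exact (hXB _ _ ⟨i, hP i h⟩).2.1 i v hv
  · intro i v hv hv'
    by_cases h : N i
    · have h1 : X i v = 0 := by
        rw [hXN i h]
        exact (hXS (B i) (hb i) h).2 v hv
      by_cases h' : N (i + 1)
      · rw [h1, hXN _ h']
        exact ((hXS (B (i + 1)) (hb _) h').2 v hv').symm
      · have h2 := hstart i h h'
        rw [h1, hXH _ h']
        have h3 := (hXB _ _ ⟨i + 1, hP (i + 1) h'⟩).2.2.2.1
        rw [h2] at h3 ⊢
        exact (h3 v hv hv').symm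
    · by_cases h' : N (i + 1)
      · have h2 := hend i h h'
        have h3 := (hXB _ _ ⟨i, hP i h⟩).2.2.2.2
        have h4 : (P i).2 - 1 = i := by omega
        rw [h4] at h3
        rw [hXN _ h', (hXS (B (i + 1)) (hb _) h').2 v hv', hXH i h]
        apply h3 v hv
        rw [h2]
        exact hv'
      · have h1 := huniq i h h'
        rw [hXH i h, hXH _ h', ← h1]
        obtain ⟨c1, c2, -⟩ := hP (i + 1) h'
        rw [← h1] at c2
        obtain ⟨a1, a2, -⟩ := hP i h
        exact (hXB _ _ ⟨i, hP i h⟩).2.2.1 i a1 c2 v hv hv'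
  · intro i h v hv
    rw [hXN i h]
    exact (hXS (B i) (hb i) h).2 v hv

theorem cl {g L b : ℕ} {C : J → ℕ → ZMod 2} (hCF : CF g L (2 * b) C) (m : ℕ) :
    Cl g L C b m := by
  induction m with
  | zero => exact cl_zero g L C b
  | succ m ih => exact cl_succ hCF ih

end H541R2.SC
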