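import Mathlib

/-!
# A layered XOR circuit and its local consistency along sequences of bags
-/

namespace H541R2.SC

open Finset

/-- chains: `(a, c)` is the `c`-th chain born at level `a` -/
abbrev J := ℕ × ℕ

/-- vertices: chain, level, position -/
abbrev D := J × ℕ × ℕ

/-- the chain `j` exists at level `l` -/
def LJ (g L l : ℕ) (j : J) : Prop := l ≤ j.1 ∧ j.1 ≤ L ∧ j.2 < g

/-- `v` belongs to the part of the chain `k` at level `l` -/
def InT (l : ℕ) (k : J) (v : D) : Prop := v.1 = k ∧ v.2.1 = l

/-- the gates at level `l` are exact -/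
def Ex (g L : ℕ) (C : J → ℕ → ZMod 2) (l : ℕ) (X : D → ZMod 2) : Prop :=
  ∀ j, LJ g L l j → X (j, l, 0) = X (j, l - 1, g) ∧
    ∀ i < g, X (j, l, i + 1) = X (j, l, i) + C j i * X ((l - 1, i), l - 1, g)

/-- below level `l` the assignment vanishes, at level `l` only roots of chains not met by `B`
carry a one -/
structure Low (g L l : ℕ) (B : Finset D) (X : D → ZMod 2) : Prop where
  below : ∀ v : D, v.2.1 < l → X v = 0
  inner : ∀ j i, i ≠ g → X (j, l, i) = 0
  root : ∀ j, X (j, l, g) ≠ 0 → LJ g L l j ∧ ∀ v ∈ B, ¬ InT l j v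

structure Fam (g L : ℕ) (C : J → ℕ → ZMod 2) (m l : ℕ) (k : J) (B : Finset D)
    (X : D → ZMod 2) : Prop where
  low : Low g L (l - m) B X
  ex : ∀ l', l - m < l' → l' ≤ l → Ex g L C l' X
  top : ∀ j, X (j, l, g) = if j = k then 1 else 0
  above : ∀ v : D, l < v.2.1 → X v = 0

/-- cover-freeness of the coefficients -/
def CF (g L f : ℕ) (C : J → ℕ → ZMod 2) : Prop :=
  ∀ k : J, k.1 ≤ L → k.2 < g → ∀ A : Finset J, A.card ≤ f → ∀ l : ℕ,
    ∃ c < g, C k c = 1 ∧ ∀ j ∈ A, j ≠ k → C j c = 0 ∧ j ≠ (l, c)

theorem zmod2_ne_zero {a : ZMod 2} (h : a ≠ 0) : a = 1 := by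
  revert h; revert a; decide

theorem zmod2_add_self (a : ZMod 2) : a + a = 0 := by
  revert a; decide

open Classical in
theorem step {g L f : ℕ} {C : J → ℕ → ZMod 2} (hCF : CF g L f C) {l : ℕ} {k : J} (hl : 1 ≤ l)
    (hk : LJ g L l k) (F : Finset D) (hF : F.card ≤ f) (hFT : ∀ v ∈ F, ¬ InT l k v) :
    ∃ (K : Finset J) (Y : J → ℕ → ZMod 2),
      (∀ j ∈ K, LJ g L (l - 1) j ∧ ∀ v ∈ F, ¬ InT (l - 1) j v) ∧
      (∀ j, LJ g L l j → Y j 0 = (if j ∈ K then 1 else 0) ∧
        ∀ i < g, Y j (i + 1) = Y j i + C j i * (if (l - 1, i) ∈ K then 1 else 0)) ∧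
      (∀ j, Y j g = if j = k then 1 else 0) ∧
      (∀ j i, (j, l, i) ∈ F → Y j i = 0) := by
  by_cases hA : ∀ v ∈ F, ¬ InT (l - 1) k v
  · refine ⟨{k}, fun j _ => if j = k then 1 else 0, ?_, ?_, ?_, ?_⟩
    · intro j hj
      rw [Finset.mem_singleton] at hj
      subst hj
      exact ⟨⟨by have := hk.1; omega, hk.2.1, hk.2.2⟩, hA⟩
    · intro j _
      refine ⟨by simp, ?_⟩
      intro i _
      have : ((l - 1, i) : J) ≠ k := by
        intro h
        have h1 : k.1 = l - 1 := by rw [← h]
        have := hk.1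
        omega
      simp [this]
    · intro j; rfl
    · intro j i hji
      have : j ≠ k := by
        intro h
        exact hFT _ hji ⟨h, rfl⟩
      simp [this]
  · obtain ⟨c, hcg, hc1, hcA⟩ := hCF k hk.2.1 hk.2.2 (F.image Prod.fst)
      (Finset.card_image_le.trans hF) (l - 1)
    have hcF : ∀ v ∈ F, v.1 ≠ k → C v.1 c = 0 ∧ v.1 ≠ (l - 1, c) := fun v hv hvk =>
      hcA v.1 (Finset.mem_image_of_mem _ hv) hvk
    set K : Finset J := insert ((l - 1, c) : J)
      (((range (L + 1)) ×ˢ (range g)).filter (fun j => l ≤ j.1 ∧ j ≠ k ∧ C j c = 1)) with hK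
    have hKmem : ∀ j, LJ g L l j → (j ∈ K ↔ (j ≠ k ∧ C j c = 1)) := by
      intro j hj
      rw [hK, Finset.mem_insert, Finset.mem_filter, Finset.mem_product, Finset.mem_range,
        Finset.mem_range]
      constructor
      · rintro (h | h)
        · exfalso
          have h1 : j.1 = l - 1 := by rw [h]
          have := hj.1
          omega
        · exact h.2.2
      · intro h
        exact Or.inr ⟨⟨by have := hj.2.1; omega, hj.2.2⟩, hj.1, h⟩
    have hKc : ∀ i, ((l - 1, i) : J) ∈ K ↔ i = c := by
      intro i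
      rw [hK, Finset.mem_insert, Finset.mem_filter]
      constructor
      · rintro (h | h)
        · exact (Prod.mk.inj h).2
        · exfalso
          have := h.2.1
          simp only at this
          omega
      · rintro rfl
        exact Or.inl rfl
    have hkK : k ∉ K := by
      rw [hKmem k hk]
      exact fun h => h.1 rfl
    refine ⟨K, fun j i => if LJ g L l j then (if j ∈ K then 1 else 0) +
      (if c < i then C j c else 0) else 0, ?_, ?_, ?_, ?_⟩
    · intro j hj
      rw [hK, Finset.mem_insert, Finset.mem_filter, Finset.mem_product, Finset.mem_range,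
        Finset.mem_range] at hj
      rcases hj with rfl | ⟨⟨h1, h2⟩, h3, h4, h5⟩
      · refine ⟨⟨le_refl _, ?_, hcg⟩, ?_⟩
        · show l - 1 ≤ L
          have := hk.1; have := hk.2.1; omega
        · intro v hv hT
          have hne : v.1 ≠ k := by
            rw [hT.1]
            intro h
            have h1 : k.1 = l - 1 := by rw [← h]
            have := hk.1
            omega
          exact (hcF v hv hne).2 hT.1
      · refine ⟨⟨by omega, by omega, h2⟩, ?_⟩
        intro v hv hT
        have hne : v.1 ≠ k := by rw [hT.1]; exact h4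
        have := (hcF v hv hne).1
        rw [hT.1, h5] at this
        exact one_ne_zero this
    · intro j hj
      refine ⟨by simp [hj], ?_⟩
      intro i hi
      simp only [hj, if_true, hKc]
      by_cases hic : i = c
      · subst hic
        simp
      · have h1 : (c < i + 1) ↔ (c < i) := by omega
        simp [hic, h1]
    · intro j
      by_cases hj : LJ g L l j
      · simp only [hj, if_true, hcg, hKmem j hj]
        by_cases hjk : j = k
        · subst hjk
          simp [hc1]
        · by_cases hC : C j c = 1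
          · simp only [hjk, hC, ne_eq, not_false_eq_true, and_self, if_true, if_false]
            decide
          · have hC0 : C j c = 0 := by
              by_contra h
              exact hC (zmod2_ne_zero h)
            simp [hjk, hC0]
      · have hjk : j ≠ k := by
          rintro rfl; exact hj hk
        simp [hj, hjk]
    · intro j i hji
      have hne : j ≠ k := by
        intro h
        exact hFT _ hji ⟨h, rfl⟩
      have h0 := (hcF _ hji hne).1
      simp only at h0
      by_cases hj : LJ g L l j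
      · have : j ∉ K := by
          rw [hKmem j hj, h0]
          simp
        simp [hj, this, h0]
      · simp [hj]

/-- combination of a band at level `l` with families one level below -/
noncomputable def comb (l : ℕ) (Y : J → ℕ → ZMod 2) (K : Finset J) (W : J → D → ZMod 2) :
    D → ZMod 2 := fun v => (if v.2.1 = l then Y v.1 v.2.2 else 0) + ∑ k' ∈ K, W k' v

open Classical in
theorem fam_comb {g L : ℕ} {C : J → ℕ → ZMod 2} {m l : ℕ} {k : J} (hl : m + 1 ≤ l)
    (hk : LJ g L l k) {K : Finset J} {Y : J → ℕ → ZMod 2}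
    (hK : ∀ j ∈ K, LJ g L (l - 1) j)
    (hY : ∀ j, LJ g L l j → Y j 0 = (if j ∈ K then 1 else 0) ∧
        ∀ i < g, Y j (i + 1) = Y j i + C j i * (if (l - 1, i) ∈ K then 1 else 0))
    (hYg : ∀ j, Y j g = if j = k then 1 else 0)
    {B B' : Finset D} (hB : ∀ v ∈ B, v ∈ B' ∨ v.2.1 = l) {W : J → D → ZMod 2}
    (hW : ∀ k' ∈ K, Fam g L C m (l - 1) k' B' (W k')) :
    Fam g L C (m + 1) l k B (comb l Y K W) := by
  have hlm : l - (m + 1) = l - 1 - m := by omega
  have hroot : ∀ j, comb l Y K W (j, l - 1, g) = if j ∈ K then 1 else 0 := by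
    intro j
    have h1 : ¬ (l - 1 = l) := by omega
    simp only [comb, h1, if_false, zero_add]
    rw [Finset.sum_congr rfl (fun k' hk' => (hW k' hk').top j)]
    simp
  have hlow : ∀ v : D, v.2.1 < l → comb l Y K W v = ∑ k' ∈ K, W k' v := by
    intro v hv
    have h1 : ¬ (v.2.1 = l) := by omega
    simp [comb, h1]
  have hband : ∀ j i, comb l Y K W (j, l, i) = Y j i := by
    intro j i
    simp only [comb, if_true]
    rw [Finset.sum_eq_zero, add_zero]
    intro k' hk'
    exact (hW k' hk').above _ (by show l - 1 < l; omega)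
  refine ⟨⟨?_, ?_, ?_⟩, ?_, ?_, ?_⟩
  · intro v hv
    rw [hlow v (by omega)]
    apply Finset.sum_eq_zero
    intro k' hk'
    exact (hW k' hk').low.below v (by omega)
  · intro j i hi
    rw [hlow _ (by show l - (m + 1) < l; omega), hlm]
    apply Finset.sum_eq_zero
    intro k' hk'
    exact (hW k' hk').low.inner j i hi
  · intro j hj
    rw [hlow _ (by show l - (m + 1) < l; omega), hlm] at hj
    obtain ⟨k', hk', hne⟩ := Finset.exists_ne_zero_of_sum_ne_zero hj
    obtain ⟨h1, h2⟩ := (hW k' hk').low.root j hne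
    rw [hlm]
    refine ⟨h1, ?_⟩
    intro v hv hT
    rcases hB v hv with h | h
    · exact h2 v h hT
    · have := hT.2
      omega
  · intro l' h1 h2 j hj
    rcases eq_or_lt_of_le h2 with rfl | h3
    · rw [hband, hroot]
      refine ⟨(hY j hj).1, ?_⟩
      intro i hi
      rw [hband, hband, hroot]
      exact (hY j hj).2 i hi
    · have hex : ∀ k' ∈ K, Ex g L C l' (W k') := fun k' hk' =>
        (hW k' hk').ex l' (by omega) (by omega)
      have hl1 : l' - 1 < l := by omega
      refine ⟨?_, ?_⟩
      · rw [hlow (j, l', 0) h3, hlow (j, l' - 1, g) hl1]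
        exact Finset.sum_congr rfl (fun k' hk' => (hex k' hk' j hj).1)
      · intro i hi
        rw [hlow (j, l', i + 1) h3, hlow (j, l', i) h3, hlow ((l' - 1, i), l' - 1, g) hl1,
          Finset.mul_sum, ← Finset.sum_add_distrib]
        exact Finset.sum_congr rfl (fun k' hk' => (hex k' hk' j hj).2 i hi)
  · intro j
    rw [hband, hYg]
  · intro v hv
    have h1 : ¬ (v.2.1 = l) := by omega
    simp only [comb, h1, if_false, zero_add]
    apply Finset.sum_eq_zero
    intro k' hk'
    exact (hW k' hk').above v (by omega)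

/-- the family statement -/
def Cl (g L : ℕ) (C : J → ℕ → ZMod 2) (b m : ℕ) : Prop :=
  ∀ l k, m ≤ l → LJ g L l k → ∀ (S : Finset D) (B : ℕ → Finset D), (∀ i, S ⊆ B i) →
    (∀ i, (B i).card ≤ b) → (∀ i, (B i \ S).card ≤ m) → B 0 = S →
    (∃ r, ∀ i, r ≤ i → B i = S) → (∀ v ∈ S, ¬ InT l k v) →
    ∃ X : ℕ → D → ZMod 2,
      (∀ i, Fam g L C m l k (B i) (X i)) ∧
      (∀ i, ∀ v ∈ S, X i v = 0) ∧
      (∀ i, ∀ v ∈ B i, v ∈ B (i + 1) → X i v = X (i + 1) v) ∧
      (∀ i, (∀ v ∈ B i, ¬ InT l k v) → ∀ v ∈ B i, X i v = 0)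

theorem cl_zero (g L : ℕ) (C : J → ℕ → ZMod 2) (b : ℕ) : Cl g L C b 0 := by
  classical
  intro l k _ hk S B hSB _ hBS _ _ hST
  have hBS' : ∀ i, B i ⊆ S := by
    intro i
    have := hBS i
    rw [Nat.le_zero, Finset.card_eq_zero] at this
    exact Finset.sdiff_eq_empty_iff_subset.1 this
  refine ⟨fun _ v => if v = (k, l, g) then 1 else 0, ?_, ?_, ?_, ?_⟩
  · intro i
    refine ⟨⟨?_, ?_, ?_⟩, ?_, ?_, ?_⟩
    · intro v hv
      have : v ≠ (k, l, g) := by
        rintro rfl
        simp at hv
      simp [this]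
    · intro j i' hi'
      have : ((j, l - 0, i') : D) ≠ (k, l, g) := by
        intro h
        simp only [Prod.mk.injEq] at h
        exact hi' h.2.2
      simp only [this, if_false]
    · intro j hj
      have : ((j, l - 0, g) : D) = (k, l, g) := by
        by_contra h
        simp only [h, if_false] at hj
        exact hj rfl
      simp only [Prod.mk.injEq] at this
      obtain ⟨rfl, -⟩ := this
      exact ⟨hk, fun v hv => hST v (hBS' i hv)⟩
    · intro l' h1 h2
      omega
    · intro j
      simp [Prod.mk.injEq]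
    · intro v hv
      have : v ≠ (k, l, g) := by
        rintro rfl
        simp at hv
      simp [this]
  · intro i v hv
    have : v ≠ (k, l, g) := by
      rintro rfl
      exact hST _ hv ⟨rfl, rfl⟩
    simp [this]
  · intro i v _ _
    rfl
  · intro i h v hv
    have : v ≠ (k, l, g) := by
      rintro rfl
      exact h _ hv ⟨rfl, rfl⟩
    simp [this]

end H541R2.SC
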