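import Pool.Agent.H541R2.SC.Comb

/-!
# Cover-free families from polynomials
-/

namespace H541R2.SC

open Finset Polynomial

/-- evaluation of the polynomial with given coefficients -/
def ev {q t : ℕ} (c : Fin t → ZMod q) (x : ZMod q) : ZMod q := ∑ i, c i * x ^ (i : ℕ)

theorem ev_agree {q t : ℕ} [Fact q.Prime] {c c' : Fin t → ZMod q} (h : c ≠ c') :
    (univ.filter (fun x : ZMod q => ev c x = ev c' x)).card < t := by
  classical
  have ht : 0 < t := by
    by_contra h0
    have : t = 0 := by omega
    subst this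
    exact h (Subsingleton.elim _ _)
  set p : (ZMod q)[X] := ∑ i : Fin t, C (c i - c' i) * X ^ (i : ℕ) with hp
  have hcoeff : ∀ i : Fin t, p.coeff (i : ℕ) = c i - c' i := by
    intro i
    rw [hp, finsetSum_coeff]
    simp only [coeff_C_mul, coeff_X_pow]
    rw [Finset.sum_eq_single i]
    · simp
    · intro j _ hj
      have : (i : ℕ) ≠ (j : ℕ) := fun h => hj (Fin.ext h.symm)
      simp [this]
    · simp
  have hp0 : p ≠ 0 := by
    intro h0
    apply h
    funext i
    have := hcoeff i
    rw [h0, coeff_zero] at this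
    exact (sub_eq_zero.1 this.symm)
  have hdeg : p.natDegree < t := by
    rw [natDegree_lt_iff_degree_lt hp0]
    refine lt_of_le_of_lt (degree_sum_le _ _) ?_
    rw [Finset.sup_lt_iff (by exact_mod_cast WithBot.bot_lt_coe t)]
    intro i _
    refine lt_of_le_of_lt (degree_C_mul_X_pow_le _ _) ?_
    exact_mod_cast i.2
  have hsub : univ.filter (fun x : ZMod q => ev c x = ev c' x) ⊆ p.roots.toFinset := by
    intro x hx
    rw [Finset.mem_filter] at hx
    rw [Multiset.mem_toFinset, mem_roots hp0, IsRoot.def, hp, eval_finsetSum]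
    simp only [eval_mul, eval_C, eval_pow, eval_X, sub_mul, Finset.sum_sub_distrib]
    exact sub_eq_zero.2 hx.2
  calc (univ.filter (fun x : ZMod q => ev c x = ev c' x)).card ≤ p.roots.toFinset.card :=
        Finset.card_le_card hsub
    _ ≤ Multiset.card p.roots := Multiset.toFinset_card_le _
    _ ≤ p.natDegree := card_roots' p
    _ < t := hdeg

open Classical in
theorem exists_CF {q t L f : ℕ} (hq : q.Prime) (hft : f * t < q) (ht : 1 ≤ t)
    (hL : (L + 1) * q ^ 2 ≤ q ^ t) :
    ∃ C : J → ℕ → ZMod 2, CF (q ^ 2) L f C := by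
  have : Fact q.Prime := ⟨hq⟩
  have hq0 : 0 < q := hq.pos
  set E : Finset J := (range (L + 1)) ×ˢ (range (q ^ 2)) with hE
  have hEmem : ∀ j : J, j ∈ E ↔ (j.1 ≤ L ∧ j.2 < q ^ 2) := by
    intro j
    rw [hE, Finset.mem_product, Finset.mem_range, Finset.mem_range]
    constructor
    · rintro ⟨h1, h2⟩; exact ⟨by omega, h2⟩
    · rintro ⟨h1, h2⟩; exact ⟨by omega, h2⟩
  have hcard : Fintype.card E ≤ Fintype.card (Fin t → ZMod q) := by
    rw [Fintype.card_coe, hE, Finset.card_product, Finset.card_range, Finset.card_range,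
      Fintype.card_fun, ZMod.card, Fintype.card_fin]
    exact hL
  obtain ⟨e⟩ := Function.Embedding.nonempty_of_card_le hcard
  set C : J → ℕ → ZMod 2 := fun j c => if h : j ∈ E then
    (if ev (e ⟨j, h⟩) ((c / q : ℕ) : ZMod q) = ((c % q : ℕ) : ZMod q) then 1 else 0) else 0 with hC
  refine ⟨C, ?_⟩
  intro k hk1 hk2 A hA l
  have hkE : k ∈ E := (hEmem k).2 ⟨hk1, hk2⟩
  set col : ZMod q → ℕ := fun x => x.val * q + (ev (e ⟨k, hkE⟩) x).val with hcol
  have hdiv : ∀ x, col x / q = x.val := by
    intro x
    simp only [hcol]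
    rw [mul_comm, Nat.mul_add_div hq0, Nat.div_eq_of_lt (ZMod.val_lt _), add_zero]
  have hmod : ∀ x, col x % q = (ev (e ⟨k, hkE⟩) x).val := by
    intro x
    simp only [hcol]
    rw [mul_comm, Nat.mul_add_mod, Nat.mod_eq_of_lt (ZMod.val_lt _)]
  have hlt : ∀ x, col x < q ^ 2 := by
    intro x
    have h1 := ZMod.val_lt x
    have h2 := ZMod.val_lt (ev (e ⟨k, hkE⟩) x)
    simp only [hcol]
    nlinarith
  -- the bad points
  set bad : J → Finset (ZMod q) := fun j =>
    (if h : j ∈ E then univ.filter (fun x : ZMod q => ev (e ⟨j, h⟩) x = ev (e ⟨k, hkE⟩) x)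
      else ∅) ∪ univ.filter (fun x => col x = j.2) with hbad
  have hbadc : ∀ j, j ≠ k → (bad j).card ≤ t := by
    intro j hj
    have h1 : (if h : j ∈ E then univ.filter (fun x : ZMod q => ev (e ⟨j, h⟩) x =
        ev (e ⟨k, hkE⟩) x) else ∅).card < t := by
      split_ifs with h
      · apply ev_agree
        intro h2
        have := e.injective h2
        exact hj (by simpa using this)
      · rw [Finset.card_empty]; omega
    have h2 : (univ.filter (fun x => col x = j.2)).card ≤ 1 := by
      rw [Finset.card_le_one]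
      intro x hx y hy
      rw [Finset.mem_filter] at hx hy
      have h3 : col x = col y := hx.2.trans hy.2.symm
      have h4 : x.val = y.val := by rw [← hdiv, ← hdiv, h3]
      exact ZMod.val_injective q h4
    have h3 := Finset.card_union_le (if h : j ∈ E then univ.filter (fun x : ZMod q =>
      ev (e ⟨j, h⟩) x = ev (e ⟨k, hkE⟩) x) else ∅) (univ.filter (fun x => col x = j.2))
    simp only [hbad]
    omega
  have hex : ∃ x : ZMod q, x ∉ (A.erase k).biUnion bad := by
    by_contra h
    push Not at h
    have h1 : (univ : Finset (ZMod q)) ⊆ (A.erase k).biUnion bad := fun x _ => h x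
    have h2 := Finset.card_le_card h1
    rw [Finset.card_univ, ZMod.card] at h2
    have h3 : ((A.erase k).biUnion bad).card ≤ (A.erase k).card * t :=
      Finset.card_biUnion_le_card_mul _ _ _ (fun j hj => hbadc j (Finset.ne_of_mem_erase hj))
    have h4 : (A.erase k).card ≤ f := (Finset.card_erase_le).trans hA
    have h5 := Nat.mul_le_mul_right t h4
    omega
  obtain ⟨x, hx⟩ := hex
  refine ⟨col x, hlt x, ?_, ?_⟩
  · simp only [hC, hkE, dif_pos, hdiv, hmod, ZMod.natCast_zmod_val, if_true]
  · intro j hj hjk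
    have hxj : x ∉ bad j := fun h => hx (Finset.mem_biUnion.2
      ⟨j, Finset.mem_erase.2 ⟨hjk, hj⟩, h⟩)
    simp only [hbad, Finset.mem_union, not_or] at hxj
    refine ⟨?_, ?_⟩
    · simp only [hC, hdiv, hmod, ZMod.natCast_zmod_val]
      split_ifs with h h'
      · exfalso
        apply hxj.1
        rw [dif_pos h, Finset.mem_filter]
        exact ⟨Finset.mem_univ _, h'⟩
      · rfl
      · rfl
    · intro h
      apply hxj.2
      rw [Finset.mem_filter, h]
      exact ⟨Finset.mem_univ _, rfl⟩

end H541R2.SC
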