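import Mathlib

/-!
# Symmetric circuits with walk-counting gates
-/

namespace H541R2.SC

open Equiv

/-- `n` interchangeable elements and a set `M` of distinguished elements -/
abbrev Vx (n : ℕ) (M : Type*) := Fin n ⊕ M

/-- Path systems (also called GEN or solvable path systems): the elements derivable from `s`, where
the rule `R a b c` derives `a` from `b` and `c`. -/
inductive Der {V : Type*} (R : V → V → V → Prop) (s : V) : V → Prop
  | axm : Der R s s
  | rule (a b c : V) : R a b c → Der R s b → Der R s c → Der R s a

/-- The kinds of gates: `atom a b c` is the input bit `R a b c`; `walk φ` is a walk-counting gate,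
its value is `φ N` where `N k` is the number of walks of length `k` in the network of the gate. -/
inductive Kind (V : Type*)
  | atom (a b c : V)
  | walk (φ : (ℕ → ℕ) → Prop)

/-- rename the elements in a gate -/
def Kind.map {V : Type*} (f : V → V) : Kind V → Kind V
  | .atom a b c => .atom (f a) (f b) (f c)
  | .walk φ => .walk φ

/-- A circuit with the gates `G` whose inputs are the bits `R a b c` (`a b c : V`).  Each
walk-counting gate `g` has a network with nodes in `Q`: each gate `h` with `wire g p q h` that is
true gives an arc from `p` to `q`, and the walks that are counted are those from `p` to `q` with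
`ends g p q`.  The function `depth` decreases from the gates to their inputs. -/
structure Circuit (V G Q : Type*) where
  kind : G → Kind V
  wire : G → Q → Q → G → Prop
  ends : G → Q → Q → Prop
  depth : G → ℕ
  out : G
  wire_depth : ∀ g p q h, wire g p q h → depth h < depth g

/-- the walks of length `k` in the network of `g`, given as the sequence of the nodes and the
sequence of the gates giving the arcs -/
def Circuit.walks {V G Q : Type*} (C : Circuit V G Q) (v : G → Prop) (g : G) (k : ℕ) :
    Set ((Fin (k + 1) → Q) × (Fin k → G)) :=
  {w | C.ends g (w.1 0) (w.1 (Fin.last k)) ∧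
    ∀ i : Fin k, C.wire g (w.1 i.castSucc) (w.1 i.succ) (w.2 i) ∧ v (w.2 i)}

/-- `v` gives the values of the gates on the input `R` -/
def Circuit.IsVal {V G Q : Type*} (C : Circuit V G Q) (R : V → V → V → Prop) (v : G → Prop) :
    Prop :=
  ∀ g, v g ↔ match C.kind g with
    | .atom a b c => R a b c
    | .walk φ => φ (fun k => (C.walks v g k).ncard)

/-- the circuit decides whether `t` is derivable from `s` -/
def Circuit.Decides {V G Q : Type*} (C : Circuit V G Q) (s t : V) : Prop :=
  ∀ R : V → V → V → Prop, ∃ v, C.IsVal R v ∧ (v C.out ↔ Der R s t)

/-- The circuit is symmetric: it is invariant under the permutations of the interchangeable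
elements. -/
structure Circuit.Symmetric {n : ℕ} {M G Q : Type*} [MulAction (Perm (Fin n)) G]
    [MulAction (Perm (Fin n)) Q] (C : Circuit (Vx n M) G Q) : Prop where
  kind : ∀ (π : Perm (Fin n)) g, C.kind (π • g) = (C.kind g).map (Sum.map π id)
  wire : ∀ (π : Perm (Fin n)) g p q h, C.wire g p q h → C.wire (π • g) (π • p) (π • q) (π • h)
  ends : ∀ (π : Perm (Fin n)) g p q, C.ends g p q → C.ends (π • g) (π • p) (π • q)
  out : ∀ π : Perm (Fin n), π • C.out = C.out

/-- all gates are inputs, OR gates or AND gates -/
def Circuit.AndOr {V G : Type*} (C : Circuit V G Bool) : Prop :=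
  (∀ g p q, C.ends g p q ↔ p = false ∧ q = true) ∧
  (∀ g p q h, C.wire g p q h → p = false ∧ q = true) ∧
  ∀ g, (∃ a b c, C.kind g = .atom a b c) ∨ C.kind g = .walk (fun N => 1 ≤ N 1) ∨
    C.kind g = .walk (fun N => N 1 = {h | C.wire g false true h}.ncard)

/-- the values of the gates are determined by the input -/
theorem Circuit.IsVal.unique {V G Q : Type*} {C : Circuit V G Q} {R : V → V → V → Prop}
    {v v' : G → Prop} (h : C.IsVal R v) (h' : C.IsVal R v') : v = v' := by
  have key : ∀ d g, C.depth g < d → (v g ↔ v' g) := by
    intro d
    induction d with
    | zero => intro g hg; omega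
    | succ d ih =>
      intro g hg
      rw [h g, h' g]
      cases hk : C.kind g with
      | atom a b c => exact Iff.rfl
      | walk φ =>
        have : ∀ k, C.walks v g k = C.walks v' g k := by
          intro k
          ext w
          refine and_congr_right (fun _ => forall_congr' (fun i => and_congr_right (fun hw => ?_)))
          exact ih _ (by have := C.wire_depth _ _ _ _ hw; omega)
        simp only [this]
  funext g
  exact propext (key _ g (Nat.lt_succ_self _))

end H541R2.SC
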