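import Pool.Agent.H541R2.SC.Wit
import Pool.Agent.H541R2.SC.Defs

/-!
# The two instances and the permutations between them
-/

namespace H541R2.SC

open Finset Equiv

/-- existing vertices -/
def Live (g L : ℕ) (v : D) : Prop := LJ g L v.2.1 v.1 ∧ v.2.2 ≤ g

/-- placement of the vertices, two copies of each, among the interchangeable elements -/
structure Place (g L n : ℕ) where
  dec : Fin n → Option (D × ZMod 2)
  enc : D → ZMod 2 → Fin n
  dec_enc : ∀ v α, Live g L v → dec (enc v α) = some (v, α)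
  enc_dec : ∀ u v α, dec u = some (v, α) → Live g L v ∧ enc v α = u

namespace Place

variable {g L n : ℕ} (P : Place g L n)

/-- flip the copies of the vertices with `x v = 1` -/
def f (x : D → ZMod 2) (u : Fin n) : Fin n :=
  match P.dec u with
  | some p => P.enc p.1 (p.2 + x p.1)
  | none => u

theorem f_some {x : D → ZMod 2} {u : Fin n} {v : D} {α : ZMod 2} (h : P.dec u = some (v, α)) :
    P.f x u = P.enc v (α + x v) := by
  simp only [f, h]

theorem f_none {x : D → ZMod 2} {u : Fin n} (h : P.dec u = none) : P.f x u = u := by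
  simp only [f, h]

theorem dec_f (x : D → ZMod 2) (u : Fin n) :
    P.dec (P.f x u) = (P.dec u).map (fun p => (p.1, p.2 + x p.1)) := by
  cases h : P.dec u with
  | none => rw [P.f_none h, h]; rfl
  | some p =>
    obtain ⟨v, α⟩ := p
    rw [P.f_some h, P.dec_enc v _ (P.enc_dec u v α h).1]
    rfl

theorem f_f (x y : D → ZMod 2) (u : Fin n) : P.f x (P.f y u) = P.f (x + y) u := by
  cases h : P.dec u with
  | none => rw [P.f_none h, P.f_none h, P.f_none h]
  | some p =>
    obtain ⟨v, α⟩ := p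
    have h1 := P.dec_f y u
    rw [h] at h1
    rw [P.f_some (x := x) (v := v) (α := α + y v) (by rw [h1]; rfl), P.f_some h]
    congr 1
    simp only [Pi.add_apply]
    ring

theorem f_zero (u : Fin n) : P.f 0 u = u := by
  cases h : P.dec u with
  | none => rw [P.f_none h]
  | some p =>
    obtain ⟨v, α⟩ := p
    rw [P.f_some h]
    simp only [Pi.zero_apply, add_zero]
    exact (P.enc_dec u v α h).2

theorem add_self_fun (x : D → ZMod 2) : x + x = 0 := by
  funext v
  exact zmod2_add_self _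

theorem f_inv (x : D → ZMod 2) (u : Fin n) : P.f x (P.f x u) = u := by
  rw [f_f, add_self_fun, f_zero]

/-- the permutation flipping the copies of the vertices with `x v = 1` -/
def perm (x : D → ZMod 2) : Perm (Fin n) := ⟨P.f x, P.f x, P.f_inv x, P.f_inv x⟩

@[simp] theorem perm_apply (x : D → ZMod 2) (u : Fin n) : P.perm x u = P.f x u := rfl

theorem perm_add (x y : D → ZMod 2) : P.perm (x + y) = P.perm x * P.perm y := by
  ext u
  simp only [perm_apply, Perm.mul_apply, f_f]

theorem perm_sq (x : D → ZMod 2) : P.perm x * P.perm x = 1 := by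
  rw [← perm_add, add_self_fun]
  ext u
  simp only [perm_apply, f_zero, Perm.coe_one, id_eq]

theorem perm_comm (x y : D → ZMod 2) : P.perm x * P.perm y = P.perm y * P.perm x := by
  rw [← perm_add, ← perm_add, add_comm]

theorem enc_inj {v v' : D} {α α' : ZMod 2} (hv : Live g L v) (hv' : Live g L v')
    (h : P.enc v α = P.enc v' α') : v = v' ∧ α = α' := by
  have h1 := P.dec_enc v α hv
  rw [h, P.dec_enc v' α' hv', Option.some.injEq, Prod.mk.injEq] at h1
  exact ⟨h1.1.symm, h1.2.symm⟩

open Classical in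
theorem perm_single {v : D} (hv : Live g L v) :
    P.perm (fun u => if u = v then 1 else 0) = swap (P.enc v 0) (P.enc v 1) := by
  ext u
  congr 1
  rw [perm_apply]
  by_cases h0 : u = P.enc v 0
  · subst h0
    rw [swap_apply_left, P.f_some (P.dec_enc v 0 hv)]
    simp
  · by_cases h1 : u = P.enc v 1
    · subst h1
      rw [swap_apply_right, P.f_some (P.dec_enc v 1 hv)]
      simp only [if_true]
      congr 1
    · rw [swap_apply_of_ne_of_ne h0 h1]
      cases h : P.dec u with
      | none => exact P.f_none h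
      | some p =>
        obtain ⟨v', α⟩ := p
        rw [P.f_some h]
        obtain ⟨h2, h3⟩ := P.enc_dec u v' α h
        have h4 : v' ≠ v := by
          rintro rfl
          have h5 : ∀ α : ZMod 2, α = 0 ∨ α = 1 := by decide
          rcases h5 α with rfl | rfl
          · exact h0 h3.symm
          · exact h1 h3.symm
        simp only [h4, if_false, add_zero]
        exact h3

open Classical in
theorem sign_add_single (x : D → ZMod 2) {v : D} (hv : Live g L v) :
    Perm.sign (P.perm (x + fun u => if u = v then 1 else 0)) = - Perm.sign (P.perm x) := by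
  rw [perm_add, map_mul, perm_single P hv, Perm.sign_swap]
  · simp
  · intro h
    have := (P.enc_inj hv hv h).2
    exact absurd this (by decide)

/-- parity can be corrected outside of a given set -/
theorem exists_even (x : D → ZMod 2) (B : Finset D) (hB : ∃ v, Live g L v ∧ v ∉ B) :
    ∃ x' : D → ZMod 2, Perm.sign (P.perm x') = 1 ∧ ∀ v ∈ B, x' v = x v := by
  classical
  obtain ⟨v, hv, hvB⟩ := hB
  rcases Int.units_eq_one_or (Perm.sign (P.perm x)) with h | h
  · exact ⟨x, h, fun _ _ => rfl⟩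
  · refine ⟨x + fun u => if u = v then 1 else 0, ?_, ?_⟩
    · rw [sign_add_single P x hv, h, neg_neg]
    · intro u hu
      have : u ≠ v := by rintro rfl; exact hvB hu
      simp [this]

/-- the action on all elements -/
def act {M : Type*} (x : D → ZMod 2) : Vx n M → Vx n M := Sum.map (P.perm x) id

/-- the vertices belonging to an element -/
def vs {M : Type*} : Vx n M → Finset D
  | Sum.inl u => match P.dec u with
    | some p => {p.1}
    | none => ∅
  | Sum.inr _ => ∅

theorem vs_card {M : Type*} (a : Vx n M) : (P.vs a).card ≤ 1 := by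
  cases a with
  | inl u =>
    simp only [vs]
    cases P.dec u with
    | none => simp
    | some p => simp
  | inr m => simp [vs]

theorem mem_vs {M : Type*} {u : Fin n} {v : D} {α : ZMod 2} (h : P.dec u = some (v, α)) :
    v ∈ P.vs (M := M) (Sum.inl u) := by
  simp [vs, h]

end Place

/-- gates: `v = v1 + μ v2` -/
def Gt (g L : ℕ) (C : J → ℕ → ZMod 2) (v v1 v2 : D) (μ : ZMod 2) : Prop :=
  ∃ j l, 1 ≤ l ∧ LJ g L l j ∧
    ((v = (j, l, 0) ∧ v1 = (j, l - 1, g) ∧ v2 = (j, l - 1, g) ∧ μ = 0) ∨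
      ∃ i < g, v = (j, l, i + 1) ∧ v1 = (j, l, i) ∧ v2 = ((l - 1, i), l - 1, g) ∧ μ = C j i)

/-- sources -/
def Src (g L : ℕ) (v : D) : Prop := Live g L v ∧ v.2.1 = 0

theorem wit_gate {g L : ℕ} {C : J → ℕ → ZMod 2} {l : ℕ} {B : Finset D} {X : D → ZMod 2}
    (hX : Wit g L C l B X) {v v1 v2 : D} {μ : ZMod 2} (hG : Gt g L C v v1 v2 μ) (hv : v ∈ B) :
    X v = X v1 + μ * X v2 := by
  obtain ⟨j, l', hl', hj, h⟩ := hG
  have hjL : l' ≤ L := hj.1.trans hj.2.1
  have hroot : l' = l → X (j, l', g) = 0 ∨ (j, l', g) ∉ B := by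
    rintro rfl
    by_contra h1
    push Not at h1
    exact (hX.low.root j h1.1).2 _ h1.2 ⟨rfl, rfl⟩
  have hzero : l' ≤ l → X v = 0 := by
    intro hle
    rcases eq_or_lt_of_le hle with h1 | h1
    · have hlev : v.1 = j ∧ v.2.1 = l' := by
        rcases h with ⟨rfl, -⟩ | ⟨i, -, rfl, -⟩ <;> exact ⟨rfl, rfl⟩
      obtain ⟨j', l'', i''⟩ := v
      simp only at hlev
      obtain ⟨rfl, rfl⟩ := hlev
      by_cases hi : i'' = g
      · subst hi
        by_contra h2
        rw [h1] at h2 hv
        exact (hX.low.root j' h2).2 _ hv ⟨rfl, rfl⟩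
      · rw [h1]
        exact hX.low.inner j' i'' hi
    · apply hX.low.below
      rcases h with ⟨rfl, -⟩ | ⟨i, -, rfl, -⟩ <;> exact h1
  rcases h with ⟨rfl, rfl, rfl, rfl⟩ | ⟨i, hi, rfl, rfl, rfl, rfl⟩
  · by_cases hle : l' ≤ l
    · rw [hzero hle, zero_mul, add_zero]
      exact (hX.low.below _ (by show l' - 1 < l; omega)).symm
    · rw [(hX.ex l' (by omega) hjL j hj).1, zero_mul, add_zero]
  · by_cases hle : l' ≤ l
    · rw [hzero hle, hX.low.below ((l' - 1, i), l' - 1, g) (by show l' - 1 < l; omega), mul_zero,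
        add_zero]
      rcases eq_or_lt_of_le hle with h1 | h1
      · rw [h1]
        exact (hX.low.inner j i (by omega)).symm
      · exact (hX.low.below _ h1).symm
    · exact (hX.ex l' (by omega) hjL j hj).2 i hi

theorem wit_src {g L : ℕ} {C : J → ℕ → ZMod 2} {l : ℕ} {B : Finset D} {X : D → ZMod 2}
    (hX : Wit g L C l B X) {v : D} (hG : Src g L v) (hv : v ∈ B) : X v = 0 := by
  obtain ⟨j, l', i⟩ := v
  obtain ⟨-, h2⟩ := hG
  simp only at h2
  subst h2
  rcases Nat.eq_zero_or_pos l with h | h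
  · subst h
    by_cases hi : i = g
    · subst hi
      by_contra h2
      exact (hX.low.root j h2).2 _ hv ⟨rfl, rfl⟩
    · exact hX.low.inner j i hi
  · exact hX.low.below _ h

/-- the two path systems -/
def Rel {g L n : ℕ} (C : J → ℕ → ZMod 2) (P : Place g L n) {M : Type*} (s t : M) (ε : ZMod 2) :
    Vx n M → Vx n M → Vx n M → Prop
  | Sum.inl a, Sum.inl b, Sum.inl c => ∃ v v1 v2 α β γ μ, P.dec a = some (v, α) ∧
      P.dec b = some (v1, β) ∧ P.dec c = some (v2, γ) ∧ Gt g L C v v1 v2 μ ∧ α = β + μ * γ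
  | Sum.inl a, Sum.inr b, Sum.inr c => b = s ∧ c = s ∧ ∃ v, P.dec a = some (v, 0) ∧ Src g L v
  | Sum.inr a, Sum.inl b, Sum.inl c => a = t ∧ P.dec b = some (((L, 0), L, g), ε) ∧
      P.dec c = some (((L, 0), L, g), ε)
  | _, _, _ => False

theorem rel_imp {g L n : ℕ} {C : J → ℕ → ZMod 2} {P : Place g L n} {M : Type*} {s t : M}
    {ε : ZMod 2} {l : ℕ} {B : Finset D} {X x : D → ZMod 2} (hX : Wit g L C l B X)
    (hx : ∀ v ∈ B, x v = X v) {a b c : Vx n M} (ha : P.vs a ⊆ B) (hb : P.vs b ⊆ B)
    (hc : P.vs c ⊆ B) (h : Rel C P s t ε a b c) :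
    Rel C P s t (ε + 1) (P.act x a) (P.act x b) (P.act x c) := by
  have hdec : ∀ (u : Fin n) (v : D) (α : ZMod 2), P.dec u = some (v, α) →
      P.dec (P.perm x u) = some (v, α + x v) := by
    intro u v α h
    rw [Place.perm_apply, Place.dec_f, h]
    rfl
  rcases a with a | a <;> rcases b with b | b <;> rcases c with c | c
  · obtain ⟨v, v1, v2, α, β, γ, μ, h1, h2, h3, h4, h5⟩ := h
    have hv : v ∈ B := ha (P.mem_vs h1)
    have hv1 : v1 ∈ B := hb (P.mem_vs h2)
    have hv2 : v2 ∈ B := hc (P.mem_vs h3)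
    refine ⟨v, v1, v2, α + x v, β + x v1, γ + x v2, μ, hdec _ _ _ h1, hdec _ _ _ h2,
      hdec _ _ _ h3, h4, ?_⟩
    rw [hx v hv, hx v1 hv1, hx v2 hv2, h5, wit_gate hX h4 hv]
    ring
  · exact h.elim
  · exact h.elim
  · obtain ⟨h1, h2, v, h3, h4⟩ := h
    refine ⟨h1, h2, v, ?_, h4⟩
    have hv : v ∈ B := ha (P.mem_vs h3)
    rw [hdec _ _ _ h3, hx v hv, wit_src hX h4 hv, add_zero]
  · obtain ⟨h1, h2, h3⟩ := h
    have hv : ((L, 0), L, g) ∈ B := hb (P.mem_vs h2)
    refine ⟨h1, ?_, ?_⟩
    · rw [hdec _ _ _ h2, hx _ hv, hX.top]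
    · rw [hdec _ _ _ h3, hx _ hv, hX.top]
  · exact h.elim
  · exact h.elim
  · exact h.elim

theorem act_act {g L n : ℕ} {P : Place g L n} {M : Type*} (x : D → ZMod 2) (a : Vx n M) :
    P.act x (P.act x a) = a := by
  cases a with
  | inl u =>
    show Sum.inl (P.f x (P.f x u)) = Sum.inl u
    rw [P.f_inv]
  | inr m => rfl

theorem vs_act {g L n : ℕ} {P : Place g L n} {M : Type*} (x : D → ZMod 2) (a : Vx n M) :
    P.vs (P.act x a) = P.vs a := by
  cases a with
  | inl u =>
    show P.vs (Sum.inl (P.f x u)) = P.vs (Sum.inl u)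
    simp only [Place.vs, P.dec_f x u]
    cases P.dec u with
    | none => rfl
    | some p => rfl
  | inr m => rfl

theorem rel_iff {g L n : ℕ} {C : J → ℕ → ZMod 2} {P : Place g L n} {M : Type*} {s t : M}
    {ε : ZMod 2} {l : ℕ} {B : Finset D} {X x : D → ZMod 2} (hX : Wit g L C l B X)
    (hx : ∀ v ∈ B, x v = X v) {a b c : Vx n M} (ha : P.vs a ⊆ B) (hb : P.vs b ⊆ B)
    (hc : P.vs c ⊆ B) :
    Rel C P s t ε a b c ↔ Rel C P s t (ε + 1) (P.act x a) (P.act x b) (P.act x c) := by
  refine ⟨rel_imp hX hx ha hb hc, fun h => ?_⟩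
  have h1 := rel_imp hX hx (by rw [vs_act]; exact ha) (by rw [vs_act]; exact hb)
    (by rw [vs_act]; exact hc) h
  rw [act_act, act_act, act_act, add_assoc, show (1 + 1 : ZMod 2) = 0 from by decide,
    add_zero] at h1
  exact h1

theorem live_top {g L : ℕ} (hg : 0 < g) : Live g L ((L, 0), L, g) :=
  ⟨⟨le_refl _, le_refl _, hg⟩, le_refl _⟩

theorem der_live {g L n : ℕ} (C : J → ℕ → ZMod 2) (P : Place g L n) {M : Type*} (s t : M)
    (ε : ZMod 2) : ∀ l j i, Live g L (j, l, i) →
      Der (Rel C P s t ε) (Sum.inr s) (Sum.inl (P.enc (j, l, i) 0)) := by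
  intro l
  induction l with
  | zero =>
    intro j i h
    refine Der.rule _ (Sum.inr s) (Sum.inr s) ?_ Der.axm Der.axm
    exact ⟨rfl, rfl, _, P.dec_enc _ 0 h, h, rfl⟩
  | succ l ih =>
    intro j i
    induction i with
    | zero =>
      intro h
      have h1 : Live g L (j, l, g) := ⟨⟨by
        have h3 : l + 1 ≤ j.1 := h.1.1
        show l ≤ j.1
        omega, h.1.2.1, h.1.2.2⟩, le_refl _⟩
      refine Der.rule _ _ _ ?_ (ih j g h1) (ih j g h1)
      refine ⟨_, _, _, 0, 0, 0, 0, P.dec_enc _ 0 h, P.dec_enc _ 0 h1, P.dec_enc _ 0 h1, ?_,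
        by simp⟩
      exact ⟨j, l + 1, by omega, h.1, Or.inl ⟨rfl, rfl, rfl, rfl⟩⟩
    | succ i ih' =>
      intro h
      have hi : i < g := by have := h.2; simp only at this; omega
      have h1 : Live g L (j, l + 1, i) := ⟨h.1, hi.le⟩
      have h2 : Live g L ((l, i), l, g) := by
        refine ⟨⟨le_refl _, ?_, hi⟩, le_refl _⟩
        have := h.1.1; have := h.1.2.1
        simp only at *
        omega
      refine Der.rule _ _ _ ?_ (ih' h1) (ih _ _ h2)
      refine ⟨_, _, _, 0, 0, 0, C j i, P.dec_enc _ 0 h, P.dec_enc _ 0 h1, P.dec_enc _ 0 h2, ?_,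
        by simp⟩
      exact ⟨j, l + 1, by omega, h.1, Or.inr ⟨i, hi, rfl, rfl, rfl, rfl⟩⟩

theorem der_zero {g L n : ℕ} (C : J → ℕ → ZMod 2) (P : Place g L n) {M : Type*} (s t : M)
    (hg : 0 < g) : Der (Rel C P s t 0) (Sum.inr s) (Sum.inr t) := by
  have h := der_live C P s t 0 L (L, 0) g (live_top hg)
  refine Der.rule _ _ _ ?_ h h
  exact ⟨rfl, P.dec_enc _ 0 (live_top hg), P.dec_enc _ 0 (live_top hg)⟩

theorem not_der_one {g L n : ℕ} (C : J → ℕ → ZMod 2) (P : Place g L n) {M : Type*} {s t : M}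
    (hst : s ≠ t) : ¬ Der (Rel C P s t 1) (Sum.inr s) (Sum.inr t) := by
  intro h
  have key : ∀ a, Der (Rel C P s t 1) (Sum.inr s) a →
      (a = Sum.inr s ∨ ∃ u v, a = Sum.inl u ∧ P.dec u = some (v, 0)) := by
    intro a ha
    induction ha with
    | axm => exact Or.inl rfl
    | rule a b c hR _ _ ihb ihc =>
      rcases a with a | a <;> rcases b with b | b <;> rcases c with c | c
      · obtain ⟨v, v1, v2, α, β, γ, μ, h1, h2, h3, h4, h5⟩ := hR
        right
        refine ⟨a, v, rfl, ?_⟩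
        rcases ihb with hb | ⟨u, w, hb, hb'⟩
        · exact absurd hb (by simp)
        · rcases ihc with hc | ⟨u', w', hc, hc'⟩
          · exact absurd hc (by simp)
          · rw [Sum.inl.injEq] at hb hc
            subst hb; subst hc
            rw [h2, Option.some.injEq, Prod.mk.injEq] at hb'
            rw [h3, Option.some.injEq, Prod.mk.injEq] at hc'
            rw [h1, h5, hb'.2, hc'.2]
            simp
      · exact hR.elim
      · exact hR.elim
      · obtain ⟨-, -, v, h3, -⟩ := hR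
        exact Or.inr ⟨a, v, rfl, h3⟩
      · obtain ⟨-, h2, -⟩ := hR
        rcases ihb with hb | ⟨u, w, hb, hb'⟩
        · exact absurd hb (by simp)
        · rw [Sum.inl.injEq] at hb
          subst hb
          rw [h2, Option.some.injEq, Prod.mk.injEq] at hb'
          exact absurd hb'.2 (by decide)
      · exact hR.elim
      · exact hR.elim
      · exact hR.elim
  rcases key _ h with h | ⟨u, v, h, -⟩
  · exact hst (Sum.inr.inj h).symm
  · exact absurd h (by simp)

end H541R2.SC
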