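import Pool.Agent.H541R2.SC.Place

/-!
# The lower bound for symmetric circuits
-/

namespace H541R2.SC

open Finset Equiv

section

variable {n : ℕ} {M G Q : Type*} [MulAction (Perm (Fin n)) G] [MulAction (Perm (Fin n)) Q]

/-- the least depth in the orbit -/
noncomputable def depth' (Ci : Circuit (Vx n M) G Q) (a : G) : ℕ :=
  sInf (Set.range (fun π : Perm (Fin n) => Ci.depth (π • a)))

theorem depth'_spec (Ci : Circuit (Vx n M) G Q) (a : G) :
    ∃ π : Perm (Fin n), Ci.depth (π • a) = depth' Ci a := by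
  have h := Nat.sInf_mem (Set.range_nonempty (fun π : Perm (Fin n) => Ci.depth (π • a)))
  obtain ⟨π, hπ⟩ := h
  exact ⟨π, hπ⟩

theorem depth'_le (Ci : Circuit (Vx n M) G Q) (a : G) (π : Perm (Fin n)) :
    depth' Ci a ≤ Ci.depth (π • a) := Nat.sInf_le ⟨π, rfl⟩

theorem depth'_smul (Ci : Circuit (Vx n M) G Q) (a : G) (π : Perm (Fin n)) :
    depth' Ci (π • a) = depth' Ci a := by
  apply le_antisymm
  · obtain ⟨τ, hτ⟩ := depth'_spec Ci a
    rw [← hτ]
    have := depth'_le Ci (π • a) (τ * π⁻¹)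
    rwa [mul_smul, inv_smul_smul] at this
  · obtain ⟨τ, hτ⟩ := depth'_spec Ci (π • a)
    rw [← hτ, ← mul_smul]
    exact depth'_le Ci a _

/-- the same circuit with an invariant depth function -/
noncomputable def redepth (Ci : Circuit (Vx n M) G Q) (hCi : Ci.Symmetric) :
    Circuit (Vx n M) G Q where
  kind := Ci.kind
  wire := Ci.wire
  ends := Ci.ends
  depth := depth' Ci
  out := Ci.out
  wire_depth := by
    intro g p q h hc
    obtain ⟨π, hπ⟩ := depth'_spec Ci g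
    rw [← hπ]
    exact lt_of_le_of_lt (depth'_le Ci h π) (Ci.wire_depth _ _ _ _ (hCi.wire π _ _ _ _ hc))

theorem redepth_symmetric (Ci : Circuit (Vx n M) G Q) (hCi : Ci.Symmetric) :
    (redepth Ci hCi).Symmetric :=
  ⟨hCi.kind, hCi.wire, hCi.ends, hCi.out⟩

theorem lower [Finite G] [Finite Q] {w d : ℕ} (hw : 1 ≤ w)
    (hn : 2 ^ 42 * w ^ 6 * (d + 1) ^ 2 * (Nat.log 2 n + 1) ^ 4 ≤ n) {s t : M} (hst : s ≠ t)
    (Ci : Circuit (Vx n M) G Q) (hCi : Ci.Symmetric) (hd : Ci.depth Ci.out ≤ d)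
    (hdec : Ci.Decides (Sum.inr s) (Sum.inr t)) :
    (∃ a : G, n ^ w ≤ (MulAction.orbit (Perm (Fin n)) a).ncard) ∨
      ∃ a : Q, n ^ w ≤ (MulAction.orbit (Perm (Fin n)) a).ncard := by
  by_contra hcon
  push Not at hcon
  obtain ⟨hcG, hcQ⟩ := hcon
  obtain ⟨lam, hlam⟩ : ∃ lam, lam = Nat.log 2 n + 1 := ⟨_, rfl⟩
  rw [← hlam] at hn
  have hlam1 : 1 ≤ lam := by omega
  obtain ⟨e, he⟩ : ∃ e, e = d + 1 := ⟨_, rfl⟩
  rw [← he] at hn
  have he1 : 1 ≤ e := by omega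
  -- parameters
  set r := 2 * w + 1 with hr
  set t' := lam + 2 with ht'
  set f := 2 * (6 * r) with hf
  set L := 5 * r * e with hL
  have hr3 : r ≤ 3 * w := by omega
  have hr1 : 1 ≤ r := by omega
  obtain ⟨q, hq, hq1, hq2⟩ := Nat.exists_prime_lt_and_le_two_mul (f * t') (by positivity)
  have hft : f * t' ≤ 108 * (w * lam) := by
    have h1 : f ≤ 36 * w := by omega
    have h2 : t' ≤ 3 * lam := by omega
    calc f * t' ≤ (36 * w) * (3 * lam) := Nat.mul_le_mul h1 h2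
      _ = 108 * (w * lam) := by ring
  have hq3 : q ≤ 216 * (w * lam) := by omega
  set g := q ^ 2 with hg
  have hqpos : 1 ≤ q := hq.one_lt.le
  have hgpos : 1 ≤ g := Nat.one_le_pow _ _ hqpos
  have hg2 : g ≤ 46656 * (w * lam) ^ 2 := by
    calc g ≤ (216 * (w * lam)) ^ 2 := Nat.pow_le_pow_left hq3 2
      _ = 46656 * (w * lam) ^ 2 := by ring
  have hL1 : L + 1 ≤ 16 * (w * e) := by
    have h1 : L ≤ 15 * (w * e) := by
      calc L ≤ 5 * (3 * w) * e := by rw [hL]; gcongr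
        _ = 15 * (w * e) := by ring
    have h2 : 1 ≤ w * e := Nat.mul_pos hw he1
    omega
  have hn0 : 0 < n := lt_of_lt_of_le (by positivity) hn
  have hsize : 2 * ((L + 1) * g * ((L + 1) * (g + 1))) ≤ n := by
    calc 2 * ((L + 1) * g * ((L + 1) * (g + 1)))
        ≤ 2 * ((L + 1) * g * ((L + 1) * (2 * g))) := by gcongr; omega
      _ = 4 * (L + 1) ^ 2 * g ^ 2 := by ring
      _ ≤ 4 * (16 * (w * e)) ^ 2 * (46656 * (w * lam) ^ 2) ^ 2 := by gcongr
      _ = 2229025112064 * (w ^ 6 * e ^ 2 * lam ^ 4) := by ring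
      _ ≤ 2 ^ 42 * (w ^ 6 * e ^ 2 * lam ^ 4) := by gcongr; norm_num
      _ = 2 ^ 42 * w ^ 6 * e ^ 2 * lam ^ 4 := by ring
      _ ≤ n := hn
  have hLn : L + 1 ≤ n := by
    refine le_trans ?_ hsize
    have : (L + 1) * 1 ≤ (L + 1) * g * ((L + 1) * (g + 1)) := by
      have h1 : 1 ≤ g * ((L + 1) * (g + 1)) := Nat.mul_pos hgpos (by positivity)
      calc (L + 1) * 1 ≤ (L + 1) * (g * ((L + 1) * (g + 1))) := Nat.mul_le_mul_left _ h1
        _ = _ := by ring
    omega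
  have hnlt : n < 2 ^ lam := by
    rw [hlam]
    exact Nat.lt_pow_succ_log_self (by norm_num) n
  obtain ⟨A, hA⟩ := exists_CF (q := q) (t := t') (L := L) (f := f) hq hq1 (by omega) (by
    rw [ht', pow_add]
    apply Nat.mul_le_mul_right
    calc L + 1 ≤ n := hLn
      _ ≤ 2 ^ lam := hnlt.le
      _ ≤ q ^ lam := Nat.pow_le_pow_left hq.two_le _)
  obtain ⟨P⟩ := exists_place (g := g) (L := L) hsize hn0
  have hsupn : 16 * (w + 1) ^ 2 * (Nat.log 2 n + 1) ≤ n := by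
    rw [← hlam]
    have h1 : w + 1 ≤ 2 * w := by omega
    calc 16 * (w + 1) ^ 2 * lam ≤ 16 * (2 * w) ^ 2 * lam := by gcongr
      _ = 64 * (w ^ 2 * lam) := by ring
      _ ≤ 2 ^ 42 * (w ^ 6 * lam ^ 4) := by
        have h2 : w ^ 2 ≤ w ^ 6 := Nat.pow_le_pow_right hw (by norm_num)
        have h3 : lam ≤ lam ^ 4 := by
          calc lam = lam ^ 1 := (pow_one _).symm
            _ ≤ lam ^ 4 := Nat.pow_le_pow_right hlam1 (by norm_num)
        have h4 : w ^ 2 * lam ≤ w ^ 6 * lam ^ 4 := Nat.mul_le_mul h2 h3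
        calc 64 * (w ^ 2 * lam) ≤ 2 ^ 42 * (w ^ 2 * lam) := by gcongr; norm_num
          _ ≤ _ := Nat.mul_le_mul_left _ h4
      _ = 2 ^ 42 * w ^ 6 * 1 * lam ^ 4 := by ring
      _ ≤ 2 ^ 42 * w ^ 6 * e ^ 2 * lam ^ 4 := by
        gcongr
        exact Nat.one_le_pow _ _ he1
      _ ≤ n := hn
  have hG : ∀ a : G, ∃ U : Finset D, U.card ≤ r ∧ Sup P a U := by
    intro a
    obtain ⟨S, hS1, hS2⟩ := exists_support' hw a hsupn (hcG a)
    obtain ⟨U, hU1, hU2⟩ := sup_of_support P hS2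
    exact ⟨U, hU1.trans hS1, hU2⟩
  have hQ : ∀ a : Q, ∃ U : Finset D, U.card ≤ r ∧ Sup P a U := by
    intro a
    obtain ⟨S, hS1, hS2⟩ := exists_support' hw a hsupn (hcQ a)
    obtain ⟨U, hU1, hU2⟩ := sup_of_support P hS2
    exact ⟨U, hU1.trans hS1, hU2⟩
  have hlive : ∀ B : Finset D, B.card ≤ 6 * r → ∃ v, Live g L v ∧ v ∉ B := by
    intro B hB
    refine exists_live hgpos B (hB.trans ?_)
    have h1 : f * 1 ≤ f * t' := Nat.mul_le_mul_left _ (by omega)
    have h2 : q ≤ g := by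
      rw [hg, pow_two]
      exact Nat.le_mul_of_pos_left _ hqpos
    omega
  refine not_decides (P := P) (redepth Ci hCi) (redepth_symmetric Ci hCi)
    (fun π a => depth'_smul Ci a π) hst hr1 hgpos hA hlive hG hQ ?_ hdec
  have h1 : depth' Ci Ci.out ≤ Ci.depth Ci.out := by
    have := depth'_le Ci Ci.out 1
    rwa [one_smul] at this
  have h2 : (redepth Ci hCi).depth (redepth Ci hCi).out = depth' Ci Ci.out := rfl
  rw [h2, hL]
  apply Nat.mul_le_mul_left
  omega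

end

end H541R2.SC
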