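import Pool.Agent.H541R2.SC.Defs

/-!
# Walk counts are entries of powers of integer matrices
-/

namespace H541R2.SC

open Finset

open Classical in
/-- walks from `p` to `q` -/
noncomputable def wf {V G Q : Type*} [Fintype G] [Fintype Q] (C : Circuit V G Q)
    (v : G → Prop) (g : G) (k : ℕ) (p q : Q) : Finset ((Fin (k + 1) → Q) × (Fin k → G)) :=
  univ.filter (fun w => (w.1 0 = p ∧ w.1 (Fin.last k) = q) ∧
    ∀ i : Fin k, C.wire g (w.1 i.castSucc) (w.1 i.succ) (w.2 i) ∧ v (w.2 i))

open Classical in
theorem wf_succ {V G Q : Type*} [Fintype G] [Fintype Q] (C : Circuit V G Q)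
    (v : G → Prop) (g : G) (k : ℕ) (p q : Q) :
    (wf C v g (k + 1) p q).card = ∑ m : Q, (wf C v g k p m).card *
      (univ.filter (fun h => C.wire g m q h ∧ v h)).card := by
  rw [Finset.card_eq_sum_card_fiberwise (f := fun w => w.1 (Fin.last k).castSucc) (t := univ)
    (fun _ _ => Finset.mem_coe.2 (Finset.mem_univ _))]
  refine Finset.sum_congr rfl (fun m _ => ?_)
  rw [← Finset.card_product]
  refine Finset.card_bij' (fun w _ => ((fun i => w.1 i.castSucc, fun i => w.2 i.castSucc),
    w.2 (Fin.last k))) (fun u _ => (Fin.snoc u.1.1 q, Fin.snoc u.1.2 u.2)) ?_ ?_ ?_ ?_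
  · intro w hw
    simp only [wf, Finset.mem_filter, Finset.mem_univ, true_and, Finset.mem_product] at hw ⊢
    obtain ⟨⟨⟨h1, h2⟩, h3⟩, h4⟩ := hw
    refine ⟨⟨⟨h1, h4⟩, ?_⟩, ?_⟩
    · intro i
      have := h3 i.castSucc
      rwa [Fin.succ_castSucc] at this
    · have := h3 (Fin.last k)
      rwa [h4, Fin.succ_last, h2] at this
  · intro u hu
    simp only [wf, Finset.mem_filter, Finset.mem_univ, true_and, Finset.mem_product] at hu ⊢
    obtain ⟨⟨⟨h1, h2⟩, h3⟩, h4⟩ := hu
    refine ⟨⟨⟨?_, ?_⟩, ?_⟩, ?_⟩
    · rw [← Fin.castSucc_zero, Fin.snoc_castSucc]; exact h1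
    · rw [Fin.snoc_last]
    · intro i
      refine Fin.lastCases ?_ (fun j => ?_) i
      · rw [Fin.succ_last, Fin.snoc_last, Fin.snoc_castSucc, Fin.snoc_last, h2]
        exact h4
      · rw [Fin.succ_castSucc, Fin.snoc_castSucc, Fin.snoc_castSucc, Fin.snoc_castSucc]
        exact h3 j
    · rw [Fin.snoc_castSucc]; exact h2
  · intro w hw
    simp only [wf, Finset.mem_filter, Finset.mem_univ, true_and] at hw
    obtain ⟨⟨⟨h1, h2⟩, h3⟩, h4⟩ := hw
    refine Prod.ext ?_ ?_
    · funext i
      refine Fin.lastCases ?_ (fun j => ?_) i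
      · simp only [Fin.snoc_last]; exact h2.symm
      · simp only [Fin.snoc_castSucc]
    · funext i
      refine Fin.lastCases ?_ (fun j => ?_) i
      · simp only [Fin.snoc_last]
      · simp only [Fin.snoc_castSucc]
  · intro u hu
    refine Prod.ext (Prod.ext ?_ ?_) ?_
    · funext i
      simp only [Fin.snoc_castSucc]
    · funext i
      simp only [Fin.snoc_castSucc]
    · simp only [Fin.snoc_last]

open Classical in
/-- The numbers of walks are given by the powers of the matrix counting the true gates on the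
arcs. -/
theorem ncard_walks {V G Q : Type*} [Fintype G] [Fintype Q] (C : Circuit V G Q)
    (v : G → Prop) (g : G) (k : ℕ) :
    (C.walks v g k).ncard = ∑ p, ∑ q, if C.ends g p q then
      ((Matrix.of fun p q => {h | C.wire g p q h ∧ v h}.ncard : Matrix Q Q ℕ) ^ k) p q else 0 := by
  set A : Matrix Q Q ℕ := Matrix.of fun p q => {h | C.wire g p q h ∧ v h}.ncard with hA
  have hAe : ∀ p q, A p q = (univ.filter (fun h => C.wire g p q h ∧ v h)).card := by
    intro p q
    rw [hA, Matrix.of_apply, Set.ncard_eq_toFinset_card']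
    congr 1
    ext h
    simp
  have key : ∀ k p q, (wf C v g k p q).card = (A ^ k) p q := by
    intro k
    induction k with
    | zero =>
      intro p q
      rw [pow_zero, Matrix.one_apply]
      split_ifs with hpq
      · subst hpq
        rw [Finset.card_eq_one]
        refine ⟨(fun _ => p, Fin.elim0), ?_⟩
        ext w
        simp only [wf, Finset.mem_filter, Finset.mem_univ, true_and, Finset.mem_singleton]
        constructor
        · rintro ⟨⟨h1, -⟩, -⟩
          refine Prod.ext ?_ (funext fun i => i.elim0)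
          funext i
          rw [Fin.eq_zero i]
          exact h1
        · rintro rfl
          exact ⟨⟨rfl, rfl⟩, fun i => i.elim0⟩
      · rw [Finset.card_eq_zero]
        ext w
        simp only [wf, Finset.mem_filter, Finset.mem_univ, true_and, Finset.notMem_empty,
          iff_false]
        rintro ⟨⟨h1, h2⟩, -⟩
        exact hpq (h1.symm.trans h2)
    | succ k ih =>
      intro p q
      rw [wf_succ, pow_succ, Matrix.mul_apply]
      refine Finset.sum_congr rfl (fun m _ => ?_)
      rw [ih, hAe]
  have hw : C.walks v g k = ((univ : Finset (Q × Q)).filter (fun x => C.ends g x.1 x.2)).biUnion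
      (fun x => wf C v g k x.1 x.2) := by
    ext w
    simp only [Circuit.walks, Finset.coe_biUnion, Finset.coe_filter, Finset.mem_univ, true_and,
      Set.mem_iUnion, wf, Set.mem_ofPred_eq, exists_prop]
    constructor
    · rintro ⟨h1, h2⟩
      exact ⟨(w.1 0, w.1 (Fin.last k)), h1, ⟨rfl, rfl⟩, h2⟩
    · rintro ⟨x, h1, ⟨h2, h3⟩, h4⟩
      rw [← h2, ← h3] at h1
      exact ⟨h1, h4⟩
  rw [hw, Set.ncard_coe_finset, Finset.card_biUnion, Finset.sum_filter,
    ← Finset.univ_product_univ, Finset.sum_product]
  · refine Finset.sum_congr rfl (fun p _ => Finset.sum_congr rfl (fun q _ => ?_))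
    simp only [key]
  · rintro ⟨p, q⟩ _ ⟨p', q'⟩ _ hne
    rw [Function.onFun, Finset.disjoint_left]
    intro w h1 h2
    simp only [wf, Finset.mem_filter, Finset.mem_univ, true_and] at h1 h2
    apply hne
    rw [← h1.1.1, ← h1.1.2, ← h2.1.1, ← h2.1.2]

end H541R2.SC
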