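import Pool.Agent.H541R2.SC.Transfer
import Pool.Agent.H541R2.SC.Cover
import Pool.Agent.H534R2.SymSupport

/-!
# Placement of the vertices, supports, and the lower bound
-/

namespace H541R2.SC

open Finset Equiv

open Classical in
theorem exists_place {g L n : ℕ} (h : 2 * ((L + 1) * g * ((L + 1) * (g + 1))) ≤ n) (hn : 0 < n) :
    Nonempty (Place g L n) := by
  set E : Finset D := (((range (L + 1)) ×ˢ (range g)) ×ˢ ((range (L + 1)) ×ˢ
    (range (g + 1)))).filter (fun v => Live g L v) with hE
  have hEmem : ∀ v : D, v ∈ E ↔ Live g L v := by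
    intro v
    rw [hE, Finset.mem_filter]
    refine ⟨fun h => h.2, fun h => ⟨?_, h⟩⟩
    simp only [Finset.mem_product, Finset.mem_range]
    obtain ⟨⟨h1, h2, h3⟩, h4⟩ := h
    refine ⟨⟨by omega, h3⟩, by omega, by omega⟩
  have hcard : E.card ≤ (L + 1) * g * ((L + 1) * (g + 1)) := by
    refine (Finset.card_filter_le _ _).trans ?_
    rw [Finset.card_product, Finset.card_product, Finset.card_product, Finset.card_range,
      Finset.card_range, Finset.card_range]
  have hc : Fintype.card (E × ZMod 2) ≤ Fintype.card (Fin n) := by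
    rw [Fintype.card_prod, Fintype.card_coe, ZMod.card, Fintype.card_fin]
    omega
  obtain ⟨ι⟩ := Function.Embedding.nonempty_of_card_le hc
  refine ⟨⟨fun u => if h : ∃ p, ι p = u then some ((Classical.choose h).1.1,
      (Classical.choose h).2) else none,
    fun v α => if h : v ∈ E then ι (⟨v, h⟩, α) else ⟨0, hn⟩, ?_, ?_⟩⟩
  · intro v α hv
    have hvE : v ∈ E := (hEmem v).2 hv
    have hex : ∃ p, ι p = ι (⟨v, hvE⟩, α) := ⟨_, rfl⟩
    have h1 := ι.injective (Classical.choose_spec hex)
    simp only [hvE, dif_pos, exists_apply_eq_apply]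
    rw [h1]
  · intro u v α hu
    by_cases hex : ∃ p, ι p = u
    · simp only [hex, dif_pos, Option.some.injEq, Prod.mk.injEq] at hu
      have h1 := Classical.choose_spec hex
      obtain ⟨h2, h3⟩ := hu
      have hvE : v ∈ E := by rw [← h2]; exact (Classical.choose hex).1.2
      refine ⟨(hEmem v).1 hvE, ?_⟩
      simp only [hvE, dif_pos]
      rw [← h1]
      congr 1
      refine Prod.ext ?_ h3.symm
      exact Subtype.ext h2.symm
    · simp only [hex, dif_neg, not_false_eq_true] at hu
      exact absurd hu (by simp)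

open Classical in
theorem exists_live {g L : ℕ} (hg : 0 < g) (B : Finset D) (hB : B.card ≤ g) :
    ∃ v, Live g L v ∧ v ∉ B := by
  by_contra h
  push Not at h
  have h1 : (range (g + 1)).image (fun i => (((L, 0), L, i) : D)) ⊆ B := by
    intro v hv
    rw [Finset.mem_image] at hv
    obtain ⟨i, hi, rfl⟩ := hv
    rw [Finset.mem_range] at hi
    exact h _ ⟨⟨le_refl _, le_refl _, hg⟩, by show i ≤ g; omega⟩
  have h2 := Finset.card_le_card h1
  rw [Finset.card_image_of_injective, Finset.card_range] at h2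
  · omega
  · intro i j hij
    simpa using hij

open Classical in
theorem sup_of_support {g L n : ℕ} (P : Place g L n) {α : Type*} [MulAction (Perm (Fin n)) α]
    {q : α} {S : Finset (Fin n)}
    (hS : ∀ π : Perm (Fin n), Perm.sign π = 1 → (∀ x ∈ S, π x = x) → π • q = q) :
    ∃ U : Finset D, U.card ≤ S.card ∧ Sup P q U := by
  refine ⟨S.biUnion (fun u => P.vs (M := Unit) (Sum.inl u)), ?_, ?_⟩
  · exact (Finset.card_biUnion_le_card_mul _ _ 1 (fun u _ => P.vs_card _)).trans (by omega)
  · intro x hx hU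
    apply hS _ hx
    intro u hu
    rw [Place.perm_apply]
    cases h : P.dec u with
    | none => exact P.f_none h
    | some p =>
      obtain ⟨v, α⟩ := p
      have hv : v ∈ S.biUnion (fun u => P.vs (M := Unit) (Sum.inl u)) :=
        Finset.mem_biUnion.2 ⟨u, hu, P.mem_vs h⟩
      rw [P.f_some h, hU v hv, add_zero]
      exact (P.enc_dec u v α h).2

theorem choose_ge {n a : ℕ} (h : 16 * a ^ 2 ≤ n) (ha : 1 ≤ a) : n ^ a ≤ n.choose (2 * a) := by
  have h1 : (n + 1 - 2 * a) ^ (2 * a) ≤ (2 * a).factorial * n.choose (2 * a) := by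
    rw [← Nat.descFactorial_eq_factorial_mul_choose]
    exact n.pow_sub_le_descFactorial (2 * a)
  have h2 : n * (2 * a) ^ 2 ≤ (n + 1 - 2 * a) ^ 2 := by
    have h3 : a ≤ a ^ 2 := by nlinarith
    obtain ⟨b, hb⟩ : ∃ b, b = n + 1 - 2 * a := ⟨_, rfl⟩
    have h4 : n + 1 = b + 2 * a := by omega
    rw [← hb]
    have h5 : n ≤ 2 * b := by omega
    nlinarith
  have h3 : (2 * a).factorial ≤ (2 * a) ^ (2 * a) := Nat.factorial_le_pow _
  have h4 : n ^ a * (2 * a).factorial ≤ (2 * a).factorial * n.choose (2 * a) := by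
    calc n ^ a * (2 * a).factorial ≤ n ^ a * (2 * a) ^ (2 * a) := Nat.mul_le_mul_left _ h3
      _ = (n * (2 * a) ^ 2) ^ a := by rw [mul_pow n, ← pow_mul]
      _ ≤ ((n + 1 - 2 * a) ^ 2) ^ a := Nat.pow_le_pow_left h2 _
      _ = (n + 1 - 2 * a) ^ (2 * a) := by rw [← pow_mul]
      _ ≤ _ := h1
  rw [mul_comm] at h4
  exact Nat.le_of_mul_le_mul_left h4 (Nat.factorial_pos _)

open Classical in
/-- elements with small orbits have small supports -/
theorem exists_support' {n w : ℕ} (hw : 1 ≤ w) {α : Type*} [Finite α]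
    [MulAction (Perm (Fin n)) α] (q : α)
    (hn : 16 * (w + 1) ^ 2 * (Nat.log 2 n + 1) ≤ n)
    (hq : (MulAction.orbit (Perm (Fin n)) q).ncard < n ^ w) :
    ∃ S : Finset (Fin n), S.card ≤ 2 * w + 1 ∧
      ∀ π : Perm (Fin n), Perm.sign π = 1 → (∀ x ∈ S, π x = x) → π • q = q := by
  have : Fintype (MulAction.orbit (Perm (Fin n)) q) := Fintype.ofFinite _
  have hcard : Fintype.card (MulAction.orbit (Perm (Fin n)) q) < n ^ w := by
    rwa [← Nat.card_coe_set_eq, Nat.card_eq_fintype_card] at hq
  set lam := Nat.log 2 n + 1 with hlam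
  have hlam1 : 1 ≤ lam := by omega
  have hn1 : 16 * (w + 1) ^ 2 ≤ n := by nlinarith
  have hn0 : n ≠ 0 := by
    have : 0 < 16 * (w + 1) ^ 2 := by positivity
    omega
  have hnlt : n < 2 ^ lam := Nat.lt_pow_succ_log_self (by norm_num) n
  have hpow : n ^ w ≤ 2 ^ (lam * w) := by
    rw [pow_mul]
    exact Nat.pow_le_pow_left hnlt.le w
  have hfac : 2 ^ (lam * w) ≤ (lam * w + 1).factorial := by
    have : ∀ f : ℕ, 2 ^ f ≤ (f + 1).factorial := by
      intro f
      induction f with
      | zero => simp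
      | succ f ih =>
        rw [pow_succ, Nat.factorial_succ]
        nlinarith
    exact this _
  have hchoose : n ^ (w + 1) ≤ n.choose (2 * (w + 1)) := choose_ge hn1 (by omega)
  have h2f : 2 * (lam * w) * (2 * (w + 1)) ≤ n := by
    calc 2 * (lam * w) * (2 * (w + 1)) ≤ 16 * (w + 1) ^ 2 * lam := by nlinarith
      _ ≤ n := hn
  obtain ⟨S, hS1, hS2⟩ := H534R2.SymSw.exists_support (α := Fin n)
    (Q := MulAction.orbit (Perm (Fin n)) q) ⟨q, MulAction.mem_orbit_self q⟩
    (f := lam * w) (r := 2 * (w + 1)) (by omega)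
    (by rw [Fintype.card_fin]; exact h2f) (by rw [Fintype.card_fin]; nlinarith)
    (by positivity) (by
      rw [Fintype.card_fin]
      refine lt_of_lt_of_le ?_ hchoose
      have h5 : 2 * (lam * w) ≤ n := by nlinarith
      have h6 : 0 < 2 * (lam * w) := by positivity
      calc 2 * (lam * w) * Fintype.card (MulAction.orbit (Perm (Fin n)) q)
          < 2 * (lam * w) * n ^ w := Nat.mul_lt_mul_of_pos_left hcard h6
        _ ≤ n * n ^ w := Nat.mul_le_mul_right _ h5
        _ = n ^ (w + 1) := by ring)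
  refine ⟨S, by omega, ?_⟩
  intro π hπ hfix
  have := hS2 π hπ hfix
  have := congrArg Subtype.val this
  simpa using this

end H541R2.SC
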