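import Pool.Agent.H541R2.SC.Inst

/-!
# Symmetric circuits cannot tell the two instances apart
-/

namespace H541R2.SC

open Finset Equiv

theorem Wit.mono {g L : ℕ} {C : J → ℕ → ZMod 2} {l : ℕ} {B B' : Finset D} {X : D → ZMod 2}
    (h : Wit g L C l B X) (hB : B' ⊆ B) : Wit g L C l B' X :=
  ⟨⟨h.low.below, h.low.inner, fun j hj => ⟨(h.low.root j hj).1,
    fun v hv => (h.low.root j hj).2 v (hB hv)⟩⟩, h.ex, h.top⟩

/-- `U` supports `q` -/
def Sup {g L n : ℕ} (P : Place g L n) {α : Type*} [MulAction (Perm (Fin n)) α] (q : α)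
    (U : Finset D) : Prop :=
  ∀ x, Perm.sign (P.perm x) = 1 → (∀ v ∈ U, x v = 0) → P.perm x • q = q

section

variable {g L n : ℕ} {P : Place g L n} {α : Type*} [MulAction (Perm (Fin n)) α]

theorem Sup.eq {q : α} {U : Finset D} (h : Sup P q U) {x y : D → ZMod 2}
    (hx : Perm.sign (P.perm x) = 1) (hy : Perm.sign (P.perm y) = 1)
    (hxy : ∀ v ∈ U, x v = y v) : P.perm x • q = P.perm y • q := by
  have h1 : P.perm (x + y) • q = q := by
    apply h
    · rw [P.perm_add, map_mul, hx, hy]; rfl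
    · intro v hv
      rw [Pi.add_apply, hxy v hv, zmod2_add_self]
  have h2 : P.perm x = P.perm y * P.perm (x + y) := by
    rw [← P.perm_add]
    congr 1
    rw [add_left_comm, Place.add_self_fun, add_zero]
  rw [h2, mul_smul, h1]

theorem Sup.smul {q : α} {U : Finset D} (h : Sup P q U) (y : D → ZMod 2) :
    Sup P (P.perm y • q) U := by
  intro x hx hU
  rw [← mul_smul, P.perm_comm, mul_smul, h x hx hU]

theorem smul_smul_self (q : α) (y : D → ZMod 2) : P.perm y • P.perm y • q = q := by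
  rw [← mul_smul, P.perm_sq, one_smul]

theorem sup_smul_iff {q : α} {U : Finset D} (y : D → ZMod 2) :
    Sup P (P.perm y • q) U ↔ Sup P q U := by
  refine ⟨fun h => ?_, fun h => h.smul y⟩
  have := h.smul y
  rwa [smul_smul_self] at this

/-- a choice of supports that is invariant under flips -/
noncomputable def Uof (P : Place g L n) (r : ℕ) (q : α) : Finset D :=
  Classical.epsilon (fun U : Finset D => U.card ≤ r ∧ Sup P q U)

theorem Uof_spec {r : ℕ} {q : α} (h : ∃ U : Finset D, U.card ≤ r ∧ Sup P q U) :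
    (Uof P r q).card ≤ r ∧ Sup P q (Uof P r q) :=
  Classical.epsilon_spec (p := fun U : Finset D => U.card ≤ r ∧ Sup P q U) h

theorem Uof_smul {r : ℕ} {q : α} (y : D → ZMod 2) : Uof P r (P.perm y • q) = Uof P r q := by
  unfold Uof
  congr 1
  funext U
  rw [sup_smul_iff]

end

/-- the induction hypothesis for the gate `a` -/
def Agree {g L n : ℕ} {G : Type*} [MulAction (Perm (Fin n)) G] (A : J → ℕ → ZMod 2)
    (P : Place g L n) (val : ZMod 2 → G → Prop) (r : ℕ) (a : G) (d : ℕ) : Prop :=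
  ∀ (ε : ZMod 2) (l : ℕ) (U : Finset D) (X x : D → ZMod 2), 5 * r * (d + 1) ≤ l → l ≤ L →
    Sup P a U → U.card ≤ r → Wit g L A l U X → (∀ v ∈ U, x v = X v) →
    Perm.sign (P.perm x) = 1 → (val ε a ↔ val (ε + 1) (P.perm x • a))

theorem card_aux {r s : ℕ} {U U1 U2 U3 : Finset D} (h : U.card ≤ s) (h1 : U1.card ≤ r)
    (h2 : U2.card ≤ r) (h3 : U3.card ≤ r) : (U ∪ U1 ∪ U2 ∪ U3).card ≤ s + 3 * r ∧
      ((U ∪ U1 ∪ U2 ∪ U3) \ U).card ≤ 3 * r := by
  have e1 := Finset.card_union_le (U ∪ U1 ∪ U2) U3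
  have e2 := Finset.card_union_le (U ∪ U1) U2
  have e3 := Finset.card_union_le U U1
  have e4 : (U ∪ U1 ∪ U2 ∪ U3) \ U ⊆ U1 ∪ U2 ∪ U3 := by
    intro v hv
    simp only [Finset.mem_sdiff, Finset.mem_union] at hv ⊢
    tauto
  have e5 := Finset.card_le_card e4
  have e6 := Finset.card_union_le (U1 ∪ U2) U3
  have e7 := Finset.card_union_le U1 U2
  omega

/-- flips along a walk, from the supports of its nodes and gates -/
theorem exists_flips {g L n : ℕ} {A : J → ℕ → ZMod 2} (P : Place g L n) {r : ℕ}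
    (hCF : CF g L (2 * (6 * r)) A) (hlive : ∀ B : Finset D, B.card ≤ 6 * r →
      ∃ v, Live g L v ∧ v ∉ B)
    {l : ℕ} {U : Finset D} {X x : D → ZMod 2} (hl : 5 * r ≤ l)
    (hlL : l ≤ L) (hUr : U.card ≤ r) (hX : Wit g L A l U X) (hx : ∀ v ∈ U, x v = X v)
    (k : ℕ) (su sh : ℕ → Finset D) (hsu : ∀ i, (su i).card ≤ r) (hsh : ∀ i, (sh i).card ≤ r) :
    ∃ y : ℕ → D → ZMod 2, (∀ i, Perm.sign (P.perm (y i)) = 1) ∧ (∀ i, ∀ v ∈ U, y i v = x v) ∧
      (∀ i < k, ∃ Z, Wit g L A (l - 5 * r) (sh i) Z ∧ ∀ v ∈ sh i, y (i + 1) v = Z v) ∧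
      (∀ i < k, ∀ v ∈ su i, y i v = y (i + 1) v) ∧ (∀ i, ∀ v ∈ su 0, y i v = y 0 v) ∧
      (∀ i, ∀ v ∈ su k, y i v = y 0 v) := by
  classical
  -- first the two ends
  set S : Finset D := U ∪ su 0 ∪ su k with hS
  have hSc : S.card ≤ 3 * r := by
    have h1 := Finset.card_union_le (U ∪ su 0) (su k)
    have h2 := Finset.card_union_le U (su 0)
    have h3 := hsu 0
    have h4 := hsu k
    have h5 : S.card = (U ∪ su 0 ∪ su k).card := by rw [hS]
    omega
  have hSd : (S \ U).card ≤ 2 * r := by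
    have h1 : S \ U ⊆ su 0 ∪ su k := by
      intro v hv
      simp only [hS, Finset.mem_sdiff, Finset.mem_union] at hv ⊢
      tauto
    have h2 := Finset.card_le_card h1
    have h3 := Finset.card_union_le (su 0) (su k)
    have h4 := hsu 0
    have h5 := hsu k
    omega
  obtain ⟨X', hX1, hX2⟩ := pm_one (m := 2 * r) hCF (by omega) hlL hX (U := S)
    (by intro v hv; simp [hS, hv]) (by omega) hSd
  set B : ℕ → Finset D := fun i => if i = 0 ∨ k < i then S else
    S ∪ su (i - 1) ∪ su i ∪ sh (i - 1) with hB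
  have hB0 : B 0 = S := by simp [hB]
  have hBs : ∀ i, i < k → B (i + 1) = S ∪ su i ∪ su (i + 1) ∪ sh i := by
    intro i hi
    have h1 : ¬ (i + 1 = 0 ∨ k < i + 1) := by omega
    simp only [hB, h1, if_false, Nat.add_sub_cancel]
  have hBl : ∀ i, k < i → B i = S := by
    intro i hi
    simp [hB, hi]
  have hcases : ∀ i, B i = S ∨ ∃ i', i' < k ∧ i = i' + 1 := by
    intro i
    rcases Nat.eq_zero_or_pos i with h | h
    · left; rw [h, hB0]
    · by_cases h2 : k < i
      · left; exact hBl i h2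
      · right; exact ⟨i - 1, by omega, by omega⟩
  have hc := fun i => card_aux hSc (hsu i) (hsu (i + 1)) (hsh i)
  have hBc : ∀ i, (B i).card ≤ 6 * r := by
    intro i
    rcases hcases i with h | ⟨i', hi', rfl⟩
    · rw [h]; omega
    · rw [hBs i' hi']; have := (hc i').1; omega
  have hSB : ∀ i, S ⊆ B i := by
    intro i
    rcases hcases i with h | ⟨i', hi', rfl⟩
    · rw [h]
    · rw [hBs i' hi']
      intro v hv
      simp [hv]
  obtain ⟨Z, hZ1, hZ2, hZ3⟩ := pm (m := 3 * r) hCF (by omega) (by omega) hX1 (B := B) hSB hBc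
    (by
      intro i
      rcases hcases i with h | ⟨i', hi', rfl⟩
      · rw [h]; simp
      · rw [hBs i' hi']; exact (hc i').2)
    hB0 ⟨k + 1, fun i hi => hBl i (by omega)⟩
  have hll : l - 2 * r - 3 * r = l - 5 * r := by omega
  rw [hll] at hZ1
  have hxs : ∀ i, ∃ y : D → ZMod 2, Perm.sign (P.perm y) = 1 ∧ ∀ v ∈ B i, y v = Z i v :=
    fun i => P.exists_even (Z i) (B i) (hlive _ (hBc i))
  choose y hy1 hy2 using hxs
  have hyS : ∀ i, ∀ v ∈ S, y i v = X' v := by
    intro i v hv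
    rw [hy2 i v (hSB i hv), hZ2 i v hv]
  refine ⟨y, hy1, ?_, ?_, ?_, ?_, ?_⟩
  · intro i v hv
    rw [hyS i v (by simp [hS, hv]), hX2 v hv, hx v hv]
  · intro i hi
    have hsub : sh i ⊆ B (i + 1) := by
      rw [hBs i hi]
      intro v hv
      simp [hv]
    exact ⟨Z (i + 1), (hZ1 (i + 1)).mono hsub, fun v hv => hy2 (i + 1) v (hsub hv)⟩
  · intro i hi v hv
    rcases Nat.eq_zero_or_pos i with h | h
    · subst h
      rw [hyS _ v (by simp [hS, hv]), hyS _ v (by simp [hS, hv])]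
    · obtain ⟨i', rfl⟩ : ∃ i', i = i' + 1 := ⟨i - 1, by omega⟩
      have m1 : v ∈ B (i' + 1) := by rw [hBs i' (by omega)]; simp [hv]
      have m2 : v ∈ B (i' + 1 + 1) := by rw [hBs (i' + 1) hi]; simp [hv]
      rw [hy2 _ v m1, hy2 _ v m2]
      exact hZ3 _ v m1 m2
  · intro i v hv
    rw [hyS _ v (by simp [hS, hv]), hyS _ v (by simp [hS, hv])]
  · intro i v hv
    rw [hyS _ v (by simp [hS, hv]), hyS _ v (by simp [hS, hv])]

section

variable {g L n : ℕ} {A : J → ℕ → ZMod 2} {P : Place g L n} {M G Q : Type*}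
  [MulAction (Perm (Fin n)) G] [MulAction (Perm (Fin n)) Q]

/-- the supports along a sequence -/
noncomputable def supSeq (P : Place g L n) (r : ℕ) {α : Type*} [MulAction (Perm (Fin n)) α]
    {m : ℕ} (w : Fin m → α) (i : ℕ) : Finset D :=
  if h : i < m then Uof P r (w ⟨i, h⟩) else ∅

theorem supSeq_smul (P : Place g L n) (r : ℕ) {α : Type*} [MulAction (Perm (Fin n)) α]
    {m : ℕ} (w : Fin m → α) (y : Fin m → D → ZMod 2) :
    supSeq P r (fun i => P.perm (y i) • w i) = supSeq P r w := by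
  funext i
  unfold supSeq
  split_ifs with h
  · exact Uof_smul _
  · rfl

theorem supSeq_card (P : Place g L n) (r : ℕ) {α : Type*} [MulAction (Perm (Fin n)) α]
    (hα : ∀ a : α, ∃ U : Finset D, U.card ≤ r ∧ Sup P a U)
    {m : ℕ} (w : Fin m → α) (i : ℕ) : (supSeq P r w i).card ≤ r := by
  unfold supSeq
  split_ifs with h
  · exact (Uof_spec (hα _)).1
  · simp

theorem supSeq_sup (P : Place g L n) (r : ℕ) {α : Type*} [MulAction (Perm (Fin n)) α]
    (hα : ∀ a : α, ∃ U : Finset D, U.card ≤ r ∧ Sup P a U)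
    {m : ℕ} (w : Fin m → α) (i : Fin m) : Sup P (w i) (supSeq P r w i) := by
  unfold supSeq
  rw [dif_pos i.2]
  exact (Uof_spec (hα _)).2

theorem agree_walk (Ci : Circuit (Vx n M) G Q) (hCi : Ci.Symmetric)
    {s t : M} {val : ZMod 2 → G → Prop}
    (hval : ∀ ε, Ci.IsVal (Rel A P s t ε) (val ε)) {r : ℕ}
    (hCF : CF g L (2 * (6 * r)) A) (hlive : ∀ B : Finset D, B.card ≤ 6 * r →
      ∃ v, Live g L v ∧ v ∉ B)
    (hG : ∀ a : G, ∃ U : Finset D, U.card ≤ r ∧ Sup P a U)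
    (hQ : ∀ a : Q, ∃ U : Finset D, U.card ≤ r ∧ Sup P a U)
    {a : G} {d : ℕ} {φ : (ℕ → ℕ) → Prop} (hk : Ci.kind a = .walk φ)
    (ih : ∀ (π : Perm (Fin n)) p q h, Ci.wire (π • a) p q h → ∃ d' < d, Agree A P val r h d') :
    Agree A P val r a d := by
  classical
  intro ε l U X x hl hlL hU hUr hX hx hs
  have h5r : 5 * r ≤ l := by nlinarith
  have hk' : Ci.kind (P.perm x • a) = .walk φ := by rw [hCi.kind, hk]; rfl
  rw [hval ε a, hval (ε + 1) _, hk, hk']
  simp only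
  have hcard : ∀ k, (Ci.walks (val ε) a k).ncard =
      (Ci.walks (val (ε + 1)) (P.perm x • a) k).ncard := by
    intro k
    -- the choice of the flips
    have hfl : ∀ su sh : ℕ → Finset D, ∃ y : ℕ → D → ZMod 2, (∀ i, (su i).card ≤ r) →
        (∀ i, (sh i).card ≤ r) →
        (∀ i, Perm.sign (P.perm (y i)) = 1) ∧ (∀ i, ∀ v ∈ U, y i v = x v) ∧
        (∀ i < k, ∃ Z, Wit g L A (l - 5 * r) (sh i) Z ∧ ∀ v ∈ sh i, y (i + 1) v = Z v) ∧
        (∀ i < k, ∀ v ∈ su i, y i v = y (i + 1) v) ∧ (∀ i, ∀ v ∈ su 0, y i v = y 0 v) ∧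
        (∀ i, ∀ v ∈ su k, y i v = y 0 v) := by
      intro su sh
      by_cases h : (∀ i, (su i).card ≤ r) ∧ (∀ i, (sh i).card ≤ r)
      · obtain ⟨y, hy⟩ := exists_flips P hCF hlive h5r hlL hUr hX hx k su sh h.1 h.2
        exact ⟨y, fun _ _ => hy⟩
      · exact ⟨fun _ => 0, fun h1 h2 => absurd ⟨h1, h2⟩ h⟩
    choose Y hY using hfl
    set W := (Fin (k + 1) → Q) × (Fin k → G) with hW
    set yy : W → ℕ → D → ZMod 2 := fun w => Y (supSeq P r w.1) (supSeq P r w.2) with hyy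
    set Φ : W → W := fun w => (fun i => P.perm (yy w i) • w.1 i,
      fun i => P.perm (yy w (i + 1)) • w.2 i) with hΦ
    have hyy2 : ∀ w, yy (Φ w) = yy w := by
      intro w
      simp only [hyy, hΦ]
      rw [supSeq_smul P r w.1 (fun i => Y (supSeq P r w.1) (supSeq P r w.2) i),
        supSeq_smul P r w.2 (fun i => Y (supSeq P r w.1) (supSeq P r w.2) (i + 1))]
    have hΦ2 : ∀ w, Φ (Φ w) = w := by
      intro w
      have h1 := hyy2 w
      refine Prod.ext ?_ ?_
      · funext i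
        show P.perm (yy (Φ w) i) • P.perm (yy w i) • w.1 i = w.1 i
        rw [h1, smul_smul_self]
      · funext i
        show P.perm (yy (Φ w) (i + 1)) • P.perm (yy w (i + 1)) • w.2 i = w.2 i
        rw [h1, smul_smul_self]
    have hprop := fun w : W => hY (supSeq P r w.1) (supSeq P r w.2)
      (supSeq_card P r hQ w.1) (supSeq_card P r hG w.2)
    have hmove : ∀ (w : W) (i : ℕ) (b : G), Sup P b U →
        P.perm (yy w i) • b = P.perm x • b := by
      intro w i b hb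
      exact hb.eq ((hprop w).1 i) hs ((hprop w).2.1 i)
    -- walks go to walks
    have hmain : ∀ (b : G) (δ : ZMod 2), (∃ π : Perm (Fin n), b = π • a) → Sup P b U →
        ∀ w ∈ Ci.walks (val δ) b k, Φ w ∈ Ci.walks (val (δ + 1)) (P.perm x • b) k := by
      rintro b δ ⟨π, hb⟩ hbU w ⟨hw1, hw2⟩
      obtain ⟨q1, q2, q3, q4, q5, q6⟩ := hprop w
      have hfirst : P.perm (yy w k) • w.1 0 = P.perm (yy w 0) • w.1 0 :=
        (supSeq_sup P r hQ w.1 0).eq (q1 _) (q1 _) (fun v hv => q5 k v hv)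
      refine ⟨?_, ?_⟩
      · show Ci.ends (P.perm x • b) (P.perm (yy w ((0 : Fin (k + 1)) : ℕ)) • w.1 0)
          (P.perm (yy w ((Fin.last k : Fin (k + 1)) : ℕ)) • w.1 (Fin.last k))
        rw [Fin.val_last, Fin.val_zero, ← hfirst, ← hmove w k b hbU]
        exact hCi.ends _ _ _ _ hw1
      · intro i
        obtain ⟨hw3, hw4⟩ := hw2 i
        show Ci.wire (P.perm x • b) (P.perm (yy w ((i.castSucc : Fin (k + 1)) : ℕ)) •
          w.1 i.castSucc) (P.perm (yy w ((i.succ : Fin (k + 1)) : ℕ)) • w.1 i.succ)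
          (P.perm (yy w (i + 1)) • w.2 i) ∧ val (δ + 1) (P.perm (yy w (i + 1)) • w.2 i)
        have hstep : P.perm (yy w ((i.castSucc : Fin (k + 1)) : ℕ)) • w.1 i.castSucc =
            P.perm (yy w (i + 1)) • w.1 i.castSucc := by
          refine (supSeq_sup P r hQ w.1 i.castSucc).eq (q1 _) (q1 _) ?_
          intro v hv
          exact q4 i i.2 v hv
        rw [hstep, Fin.val_succ]
        refine ⟨?_, ?_⟩
        · rw [← hmove w (i + 1) b hbU]
          exact hCi.wire _ _ _ _ _ hw3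
        · rw [hb] at hw3
          obtain ⟨d', hd', hA⟩ := ih π _ _ _ hw3
          obtain ⟨Z, hZ1, hZ2⟩ := q3 i i.2
          refine (hA δ (l - 5 * r) (supSeq P r w.2 i) Z _ ?_ (by omega)
            (supSeq_sup P r hG w.2 i) (supSeq_card P r hG w.2 i) hZ1 hZ2 (q1 _)).1 hw4
          have h1 : 5 * r * (d' + 1) ≤ 5 * r * d := Nat.mul_le_mul_left _ hd'
          have e : 5 * r * (d + 1) = 5 * r * d + 5 * r := by ring
          omega
    refine Set.ncard_congr (fun w _ => Φ w) ?_ ?_ ?_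
    · intro w hw
      exact hmain a ε ⟨1, (one_smul _ _).symm⟩ hU w hw
    · intro w w' _ _ he
      have := congrArg Φ he
      rwa [hΦ2, hΦ2] at this
    · intro w hw
      refine ⟨Φ w, ?_, hΦ2 w⟩
      have h1 := hmain (P.perm x • a) (ε + 1) ⟨_, rfl⟩ (hU.smul x) w hw
      rwa [smul_smul_self, add_assoc, show (1 + 1 : ZMod 2) = 0 from by decide, add_zero] at h1
  simp only [hcard]

theorem agree_atom (Ci : Circuit (Vx n M) G Q) (hCi : Ci.Symmetric)
    {s t : M} {val : ZMod 2 → G → Prop}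
    (hval : ∀ ε, Ci.IsVal (Rel A P s t ε) (val ε)) {r : ℕ} (hr : 1 ≤ r)
    (hCF : CF g L (2 * (6 * r)) A) (hlive : ∀ B : Finset D, B.card ≤ 6 * r →
      ∃ v, Live g L v ∧ v ∉ B)
    {a : G} {d : ℕ} {u v w : Vx n M} (hk : Ci.kind a = .atom u v w) :
    Agree A P val r a d := by
  classical
  intro ε l U X x hl hlL hU hUr hX hx hs
  have hc := card_aux hUr ((P.vs_card u).trans hr) ((P.vs_card v).trans hr)
    ((P.vs_card w).trans hr)
  have h3r : 3 * r ≤ l := by nlinarith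
  obtain ⟨Z, hZ1, hZ2⟩ := pm_one (m := 3 * r) hCF h3r hlL hX
    (U := U ∪ P.vs u ∪ P.vs v ∪ P.vs w) (by intro v hv; simp [hv]) (by omega) hc.2
  obtain ⟨y, hy1, hy2⟩ := P.exists_even Z (U ∪ P.vs u ∪ P.vs v ∪ P.vs w)
    (hlive _ (by omega))
  have hya : P.perm x • a = P.perm y • a := by
    refine hU.eq hs hy1 ?_
    intro b hb
    rw [hx b hb, hy2 b (by simp [hb]), hZ2 b hb]
  have hk' : Ci.kind (P.perm y • a) = .atom (P.act y u) (P.act y v) (P.act y w) := by
    rw [hCi.kind, hk]; rfl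
  rw [hya, hval ε a, hval (ε + 1) _, hk, hk']
  exact rel_iff hZ1 hy2 (by intro b hb; simp [hb]) (by intro b hb; simp [hb])
    (by intro b hb; simp [hb])

theorem agree_all (Ci : Circuit (Vx n M) G Q) (hCi : Ci.Symmetric)
    (hdep : ∀ (π : Perm (Fin n)) a, Ci.depth (π • a) = Ci.depth a)
    {s t : M} {val : ZMod 2 → G → Prop}
    (hval : ∀ ε, Ci.IsVal (Rel A P s t ε) (val ε)) {r : ℕ} (hr : 1 ≤ r)
    (hCF : CF g L (2 * (6 * r)) A) (hlive : ∀ B : Finset D, B.card ≤ 6 * r →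
      ∃ v, Live g L v ∧ v ∉ B)
    (hG : ∀ a : G, ∃ U : Finset D, U.card ≤ r ∧ Sup P a U)
    (hQ : ∀ a : Q, ∃ U : Finset D, U.card ≤ r ∧ Sup P a U) :
    ∀ (N : ℕ) (a : G), Ci.depth a < N → Agree A P val r a (Ci.depth a) := by
  intro N
  induction N with
  | zero => intro a ha; omega
  | succ N ih =>
    intro a ha
    cases hk : Ci.kind a with
    | atom u v w => exact agree_atom Ci hCi hval hr hCF hlive hk
    | walk φ =>
      refine agree_walk Ci hCi hval hCF hlive hG hQ hk ?_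
      intro π p q h hc
      have h1 := Ci.wire_depth _ _ _ _ hc
      rw [hdep] at h1
      exact ⟨_, h1, ih h (by omega)⟩

/-- the circuit does not decide derivability -/
theorem not_decides (Ci : Circuit (Vx n M) G Q) (hCi : Ci.Symmetric)
    (hdep : ∀ (π : Perm (Fin n)) a, Ci.depth (π • a) = Ci.depth a)
    {s t : M} (hst : s ≠ t) {r : ℕ} (hr : 1 ≤ r) (hg : 0 < g)
    (hCF : CF g L (2 * (6 * r)) A) (hlive : ∀ B : Finset D, B.card ≤ 6 * r →
      ∃ v, Live g L v ∧ v ∉ B)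
    (hG : ∀ a : G, ∃ U : Finset D, U.card ≤ r ∧ Sup P a U)
    (hQ : ∀ a : Q, ∃ U : Finset D, U.card ≤ r ∧ Sup P a U)
    (hL : 5 * r * (Ci.depth Ci.out + 1) ≤ L) :
    ¬ Ci.Decides (Sum.inr s) (Sum.inr t) := by
  intro hdec
  have h1 : ∀ ε : ZMod 2, ∃ v, Ci.IsVal (Rel A P s t ε) v ∧
      (v Ci.out ↔ Der (Rel A P s t ε) (Sum.inr s) (Sum.inr t)) := fun ε => hdec _
  choose val hval hout using h1
  have hA := agree_all Ci hCi hdep hval hr hCF hlive hG hQ _ Ci.out (Nat.lt_succ_self _)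
  obtain ⟨x, hx1, -⟩ := P.exists_even 0 ∅ (hlive ∅ (by simp))
  have h2 := hA 0 L ∅ _ x hL le_rfl (fun y _ _ => hCi.out _) (by simp) (wit_init A hg)
    (by simp) hx1
  rw [hCi.out, zero_add, hout 0, hout 1] at h2
  exact not_der_one A P hst (h2.1 (der_zero A P s t hg))

end

end H541R2.SC
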