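import Pool.Agent.H541R2.SC.Defs

/-!
# Small symmetric AND/OR circuits for path systems
-/

namespace H541R2.SC

open Equiv

universe u

/-- gates of the circuit: inputs, `a` is derived in `i` rounds, the rule `a ← b, c` fires after
`i` rounds -/
inductive UG (V : Type u) (N : ℕ) : Type u
  | inp (a b c : V)
  | dr (i : Fin (N + 1)) (a : V)
  | an (i : Fin N) (a b c : V)

def UG.map {V : Type u} {N : ℕ} (f : V → V) : UG V N → UG V N
  | .inp a b c => .inp (f a) (f b) (f c)
  | .dr i a => .dr i (f a)
  | .an i a b c => .an i (f a) (f b) (f c)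

def UG.equiv (V : Type u) (N : ℕ) :
    UG V N ≃ (V × V × V) ⊕ (Fin (N + 1) × V) ⊕ (Fin N × V × V × V) where
  toFun
    | .inp a b c => Sum.inl (a, b, c)
    | .dr i a => Sum.inr (Sum.inl (i, a))
    | .an i a b c => Sum.inr (Sum.inr (i, a, b, c))
  invFun
    | Sum.inl (a, b, c) => .inp a b c
    | Sum.inr (Sum.inl (i, a)) => .dr i a
    | Sum.inr (Sum.inr (i, a, b, c)) => .an i a b c
  left_inv := by rintro (_ | _ | _) <;> rfl
  right_inv := by rintro (⟨_, _, _⟩ | ⟨_, _⟩ | ⟨_, _, _, _⟩) <;> rfl

/-- children -/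
def UG.ch {V : Type u} {N : ℕ} (s : V) : UG V N → UG V N → Prop
  | .dr i a, .an i' a' _ _ => a ≠ s ∧ a' = a ∧ (i : ℕ) = i' + 1
  | .an _ a b c, .inp a' b' c' => a' = a ∧ b' = b ∧ c' = c
  | .an i _ b c, .dr i' b' => (i' : ℕ) = i ∧ (b' = b ∨ b' = c)
  | _, _ => False

def UG.dep {V : Type u} {N : ℕ} : UG V N → ℕ
  | .inp _ _ _ => 0
  | .dr i _ => 2 * i
  | .an i _ _ _ => 2 * i + 1

theorem UG.ch_dep {V : Type u} {N : ℕ} {s : V} {g h : UG V N} (hc : UG.ch s g h) :
    h.dep < g.dep := by
  cases g <;> cases h <;> simp only [UG.ch, UG.dep] at hc ⊢ <;> omega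

open Classical in
/-- OR gates are those of the form `dr i a` with `a ≠ s` -/
noncomputable def UG.kind {V : Type u} {N : ℕ} (s : V) (g : UG V N) : Kind V :=
  match g with
  | .inp a b c => .atom a b c
  | .dr i a => if a = s then .walk (fun W => W 1 = {h | UG.ch s (.dr i a : UG V N) h}.ncard)
      else .walk (fun W => 1 ≤ W 1)
  | .an i a b c => .walk (fun W => W 1 = {h | UG.ch s (.an i a b c : UG V N) h}.ncard)

/-- the circuit -/
noncomputable def upC {V : Type u} (N : ℕ) (s t : V) : Circuit V (UG V N) Bool where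
  kind := UG.kind s
  wire g p q h := p = false ∧ q = true ∧ UG.ch s g h
  ends _ p q := p = false ∧ q = true
  depth := UG.dep
  out := .dr (Fin.last N) t
  wire_depth _ _ _ _ h := UG.ch_dep h.2.2

/-- the elements derived in `i` rounds -/
def rounds {V : Type u} (R : V → V → V → Prop) (s : V) : ℕ → V → Prop
  | 0, a => a = s
  | i + 1, a => a = s ∨ ∃ b c, R a b c ∧ rounds R s i b ∧ rounds R s i c

/-- the values -/
def UG.val {V : Type u} {N : ℕ} (R : V → V → V → Prop) (s : V) : UG V N → Prop
  | .inp a b c => R a b c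
  | .dr i a => rounds R s i a
  | .an i a b c => R a b c ∧ rounds R s i b ∧ rounds R s i c

theorem walks_one {V G : Type u} {C : Circuit V G Bool} {ch : G → G → Prop}
    (hw : ∀ g p q h, C.wire g p q h ↔ p = false ∧ q = true ∧ ch g h)
    (he : ∀ g p q, C.ends g p q ↔ p = false ∧ q = true) (v : G → Prop) (g : G) :
    (C.walks v g 1).ncard = {h | ch g h ∧ v h}.ncard := by
  refine Set.ncard_congr (fun w _ => w.2 0) ?_ ?_ ?_
  · rintro w ⟨-, h2⟩
    have h3 := h2 0
    rw [hw] at h3
    exact ⟨h3.1.2.2, h3.2⟩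
  · rintro w w' ⟨h1, -⟩ ⟨h1', -⟩ h
    rw [he] at h1 h1'
    refine Prod.ext ?_ ?_
    · funext i
      fin_cases i
      · exact h1.1.trans h1'.1.symm
      · exact h1.2.trans h1'.2.symm
    · funext i
      rw [Subsingleton.elim i 0]
      exact h
  · rintro h ⟨h1, h2⟩
    refine ⟨(![false, true], fun _ => h), ⟨?_, ?_⟩, rfl⟩
    · rw [he]; exact ⟨rfl, rfl⟩
    · intro i
      rw [Subsingleton.elim i 0, hw]
      exact ⟨⟨rfl, rfl, h1⟩, h2⟩

theorem or_iff {G : Type u} [Finite G] {p q : G → Prop} :
    1 ≤ {h | p h ∧ q h}.ncard ↔ ∃ h, p h ∧ q h := by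
  rw [Nat.succ_le_iff, Set.ncard_pos]
  exact Iff.rfl

theorem and_iff {G : Type u} [Finite G] {p q : G → Prop} :
    {h | p h ∧ q h}.ncard = {h | p h}.ncard ↔ ∀ h, p h → q h := by
  constructor
  · intro h g hg
    have h1 : {h | p h ∧ q h} = {h | p h} :=
      Set.eq_of_subset_of_ncard_le (fun x hx => hx.1) h.ge (Set.toFinite _)
    have h2 : g ∈ {h | p h} := hg
    rw [← h1] at h2
    exact h2.2
  · intro h
    congr 1
    ext x
    exact ⟨fun hx => hx.1, fun hx => ⟨hx, h x hx⟩⟩

theorem finite_UG (V : Type u) [Finite V] (N : ℕ) : Finite (UG V N) :=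
  Finite.of_equiv _ (UG.equiv V N).symm

theorem upC_isVal {V : Type u} [Finite V] (N : ℕ) (s t : V) (R : V → V → V → Prop) :
    (upC N s t).IsVal R (UG.val R s) := by
  have := finite_UG V N
  have hw1 : ∀ g, ((upC N s t).walks (UG.val R s) g 1).ncard =
      {h | UG.ch s g h ∧ UG.val R s h}.ncard :=
    walks_one (C := upC N s t) (ch := UG.ch s) (fun _ _ _ _ => Iff.rfl) (fun _ _ _ => Iff.rfl) _
  intro g
  cases g with
  | inp a b c => exact Iff.rfl
  | dr i a =>
    by_cases ha : a = s
    · have hk : (upC N s t).kind (.dr i a) =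
          .walk (fun W => W 1 = {h | UG.ch s (.dr i a : UG V N) h}.ncard) := by
        simp only [upC, UG.kind, ha, if_true]
      rw [hk]
      simp only [hw1, and_iff]
      constructor
      · intro _ h hh
        cases h with
        | an i' a' b c => exact absurd ha hh.1
        | inp _ _ _ => exact hh.elim
        | dr _ _ => exact hh.elim
      · intro _
        show rounds R s i a
        cases (i : ℕ) with
        | zero => exact ha
        | succ j => exact Or.inl ha
    · have hk : (upC N s t).kind (.dr i a) = .walk (fun W => 1 ≤ W 1) := by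
        simp only [upC, UG.kind, ha, if_false]
      rw [hk]
      simp only [hw1, or_iff]
      constructor
      · intro h
        obtain ⟨i, hi⟩ := i
        cases i with
        | zero => exact absurd h ha
        | succ j =>
          rcases h with h | ⟨b, c, h1, h2, h3⟩
          · exact absurd h ha
          · exact ⟨.an ⟨j, by omega⟩ a b c, ⟨ha, rfl, rfl⟩, h1, h2, h3⟩
      · rintro ⟨h, h1, h2⟩
        cases h with
        | an i' a' b c =>
          obtain ⟨-, rfl, h4⟩ := h1
          show rounds R s i a'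
          rw [h4]
          exact Or.inr ⟨b, c, h2⟩
        | inp _ _ _ => exact h1.elim
        | dr _ _ => exact h1.elim
  | an i a b c =>
    have hk : (upC N s t).kind (.an i a b c) =
        .walk (fun W => W 1 = {h | UG.ch s (.an i a b c : UG V N) h}.ncard) := rfl
    rw [hk]
    simp only [hw1, and_iff]
    constructor
    · rintro ⟨h1, h2, h3⟩ h hh
      cases h with
      | an _ _ _ _ => exact hh.elim
      | inp a' b' c' =>
        obtain ⟨rfl, rfl, rfl⟩ := hh
        exact h1
      | dr i' b' =>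
        obtain ⟨h4, h5⟩ := hh
        show rounds R s i' b'
        rw [h4]
        rcases h5 with rfl | rfl
        · exact h2
        · exact h3
    · intro h
      have e : ((i.castSucc : Fin (N + 1)) : ℕ) = i := rfl
      refine ⟨h (.inp a b c) ⟨rfl, rfl, rfl⟩, ?_, ?_⟩
      · exact h (.dr i.castSucc b) ⟨e, Or.inl rfl⟩
      · exact h (.dr i.castSucc c) ⟨e, Or.inr rfl⟩

theorem rounds_mono {V : Type u} {R : V → V → V → Prop} {s : V} {i : ℕ} {a : V}
    (h : rounds R s i a) : rounds R s (i + 1) a := by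
  induction i generalizing a with
  | zero => exact Or.inl h
  | succ i ih =>
    rcases h with h | ⟨b, c, h1, h2, h3⟩
    · exact Or.inl h
    · exact Or.inr ⟨b, c, h1, ih h2, ih h3⟩

theorem rounds_iff {V : Type u} [Finite V] {R : V → V → V → Prop} {s a : V} :
    rounds R s (Nat.card V) a ↔ Der R s a := by
  have hdir : ∀ i a, rounds R s i a → Der R s a := by
    intro i
    induction i with
    | zero => rintro a rfl; exact Der.axm
    | succ i ih =>
      rintro a (rfl | ⟨b, c, h1, h2, h3⟩)
      · exact Der.axm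
      · exact Der.rule a b c h1 (ih b h2) (ih c h3)
  refine ⟨hdir _ a, fun hD => ?_⟩
  -- some round is stable
  have hstab : ∃ i ≤ Nat.card V, ∀ a, rounds R s (i + 1) a → rounds R s i a := by
    by_contra hcon
    push Not at hcon
    have hcard : ∀ i ≤ Nat.card V, i ≤ {a | rounds R s i a}.ncard ∧
        (i + 1 ≤ {a | rounds R s i a}.ncard) := by
      intro i
      induction i with
      | zero =>
        intro _
        refine ⟨Nat.zero_le _, ?_⟩
        rw [Nat.succ_le_iff, Set.ncard_pos]
        exact ⟨s, rfl⟩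
      | succ i ih =>
        intro hi
        obtain ⟨a, ha1, ha2⟩ := hcon i (by omega)
        have h1 := (ih (by omega)).2
        have h2 : {a | rounds R s i a} ⊂ {a | rounds R s (i + 1) a} := by
          refine ⟨fun x hx => rounds_mono hx, fun h => ha2 (h ha1)⟩
        have h3 := Set.ncard_lt_ncard h2 (Set.toFinite _)
        omega
    have h1 := (hcard (Nat.card V) le_rfl).2
    have h2 : {a | rounds R s (Nat.card V) a}.ncard ≤ Nat.card V := by
      rw [← Set.ncard_univ]
      exact Set.ncard_le_ncard (Set.subset_univ _) (Set.toFinite _)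
    omega
  obtain ⟨i, hi, hst⟩ := hstab
  have hall : ∀ a, Der R s a → rounds R s i a := by
    intro a ha
    induction ha with
    | axm =>
      cases i with
      | zero => rfl
      | succ j => exact Or.inl rfl
    | rule a b c h1 _ _ h2 h3 => exact hst a (Or.inr ⟨b, c, h1, h2, h3⟩)
  have hmono : ∀ j, i ≤ j → rounds R s j a := by
    intro j hj
    induction j, hj using Nat.le_induction with
    | base => exact hall a hD
    | succ j _ ih => exact rounds_mono ih
  exact hmono _ hi

theorem upC_decides {V : Type u} [Finite V] (s t : V) :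
    (upC (Nat.card V) s t).Decides s t := by
  intro R
  refine ⟨UG.val R s, upC_isVal _ s t R, ?_⟩
  show rounds R s (Fin.last (Nat.card V) : ℕ) t ↔ _
  rw [Fin.val_last]
  exact rounds_iff

theorem upC_andOr {V : Type u} (N : ℕ) (s t : V) : (upC N s t).AndOr := by
  refine ⟨fun _ _ _ => Iff.rfl, fun _ _ _ _ h => ⟨h.1, h.2.1⟩, ?_⟩
  have hset : ∀ g : UG V N, {h | (upC N s t).wire g false true h} = {h | UG.ch s g h} := by
    intro g
    ext h
    exact ⟨fun h => h.2.2, fun h => ⟨rfl, rfl, h⟩⟩
  intro g
  cases g with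
  | inp a b c => exact Or.inl ⟨a, b, c, rfl⟩
  | dr i a =>
    right
    by_cases ha : a = s
    · right
      rw [hset]
      simp only [upC, UG.kind, ha, if_true]
    · left
      simp only [upC, UG.kind, ha, if_false]
  | an i a b c =>
    right; right
    rw [hset]
    rfl

section symmetric

variable {n : ℕ} {M : Type u}

/-- the action on the gates -/
@[instance_reducible]
def ugAction (n : ℕ) (M : Type u) (N : ℕ) : MulAction (Perm (Fin n)) (UG (Vx n M) N) where
  smul π g := g.map (Sum.map π id)
  one_smul g := by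
    have h : (Sum.map (⇑(1 : Perm (Fin n))) (id : M → M)) = id := by
      funext x; cases x <;> rfl
    show g.map (Sum.map (⇑(1 : Perm (Fin n))) id) = g
    rw [h]
    cases g <;> rfl
  mul_smul π τ g := by
    have h : ∀ x : Vx n M, Sum.map (⇑(π * τ)) id x = Sum.map π id (Sum.map τ id x) := by
      intro x; cases x <;> rfl
    show g.map (Sum.map (⇑(π * τ)) id) = (g.map (Sum.map τ id)).map (Sum.map π id)
    cases g <;> simp only [UG.map, h]

/-- the trivial action on the nodes -/
@[instance_reducible]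
def boolAction (n : ℕ) : MulAction (Perm (Fin n)) Bool where
  smul _ b := b
  one_smul _ := rfl
  mul_smul _ _ _ := rfl

theorem sumMap_inj (π : Perm (Fin n)) :
    Function.Injective (Sum.map π id : Vx n M → Vx n M) :=
  Sum.map_injective.2 ⟨π.injective, Function.injective_id⟩

theorem ch_map {N : ℕ} {s : Vx n M} {f : Vx n M → Vx n M} (hf : Function.Injective f)
    (hs : f s = s) {g h : UG (Vx n M) N} (hc : UG.ch s g h) : UG.ch s (g.map f) (h.map f) := by
  cases g <;> cases h <;> simp only [UG.ch, UG.map] at hc ⊢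
  · obtain ⟨h1, rfl, h3⟩ := hc
    exact ⟨fun h => h1 (hf (h.trans hs.symm)), rfl, h3⟩
  · obtain ⟨rfl, rfl, rfl⟩ := hc
    exact ⟨rfl, rfl, rfl⟩
  · obtain ⟨h1, h2⟩ := hc
    exact ⟨h1, h2.imp (congrArg f) (congrArg f)⟩

theorem map_symm {N : ℕ} (τ : Perm (Fin n)) (x : UG (Vx n M) N) :
    (x.map (Sum.map τ id)).map (Sum.map τ.symm id) = x := by
  have h : ∀ y : Vx n M, Sum.map τ.symm id (Sum.map τ id y) = y := by
    intro y
    cases y with
    | inl a => simp
    | inr b => rfl
  cases x <;> simp only [UG.map, h]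

theorem ncard_ch_map {N : ℕ} {s : M} (π : Perm (Fin n)) (g : UG (Vx n M) N) :
    {h | UG.ch (Sum.inr s) (g.map (Sum.map π id)) h}.ncard =
      {h | UG.ch (Sum.inr s) g h}.ncard := by
  symm
  refine Set.ncard_congr (fun h _ => h.map (Sum.map π id)) ?_ ?_ ?_
  · intro h hh
    exact ch_map (sumMap_inj π) rfl hh
  · intro h h' _ _ he
    have h1 : (h.map (Sum.map π id)).map (Sum.map π.symm id) =
      (h'.map (Sum.map π id)).map (Sum.map π.symm id) := by rw [he]
    rwa [map_symm, map_symm] at h1
  · intro h hh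
    refine ⟨h.map (Sum.map π.symm id), ?_, ?_⟩
    · have h1 := ch_map (s := Sum.inr s) (sumMap_inj π.symm) rfl hh
      rwa [map_symm] at h1
    · exact map_symm π.symm h

theorem kind_map {N : ℕ} (s : M) (π : Perm (Fin n)) (g : UG (Vx n M) N) :
    UG.kind (Sum.inr s) (g.map (Sum.map π id)) =
      (UG.kind (Sum.inr s) g).map (Sum.map π id) := by
  have hn := ncard_ch_map (s := s) π g
  cases g with
  | inp a b c => rfl
  | dr i a =>
    simp only [UG.map] at hn ⊢
    have h1 : (Sum.map π id a = (Sum.inr s : Vx n M)) ↔ a = Sum.inr s := by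
      constructor
      · intro h
        exact sumMap_inj π (h.trans rfl)
      · rintro rfl
        rfl
    by_cases ha : a = Sum.inr s
    · simp only [UG.kind]
      rw [if_pos (h1.2 ha), if_pos ha, hn]
      rfl
    · simp only [UG.kind]
      rw [if_neg (fun h => ha (h1.1 h)), if_neg ha]
      rfl
  | an i a b c =>
    simp only [UG.map] at hn ⊢
    simp only [UG.kind, Kind.map, hn]

end symmetric

/-- **Upper bound.** -/
theorem upper (n : ℕ) (M : Type u) [Finite M] (s t : M) :
    ∃ (G : Type u) (_ : Finite G) (_ : MulAction (Perm (Fin n)) G)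
      (_ : MulAction (Perm (Fin n)) Bool) (C : Circuit (Vx n M) G Bool),
      C.Symmetric ∧ C.AndOr ∧ C.Decides (Sum.inr s) (Sum.inr t) ∧
      C.depth C.out = 2 * (n + Nat.card M) ∧ Nat.card G ≤ (n + Nat.card M + 1) ^ 4 := by
  have hV : Nat.card (Vx n M) = n + Nat.card M := by
    rw [Nat.card_sum, Nat.card_fin]
  set N := n + Nat.card M with hN
  let i1 := ugAction n M N
  let i2 := boolAction n
  have hsym : (upC N (Sum.inr s) (Sum.inr t) : Circuit (Vx n M) _ _).Symmetric := by
    refine ⟨?_, ?_, ?_, ?_⟩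
    · intro π g
      exact kind_map s π g
    · rintro π g p q h ⟨h1, h2, h3⟩
      exact ⟨h1, h2, ch_map (sumMap_inj π) rfl h3⟩
    · rintro π g p q h
      exact h
    · intro π
      rfl
  refine ⟨UG (Vx n M) N, finite_UG _ _, i1, i2, upC N (Sum.inr s) (Sum.inr t), hsym,
    upC_andOr _ _ _, ?_, ?_, ?_⟩
  · have := upC_decides (V := Vx n M) (Sum.inr s) (Sum.inr t)
    rwa [hV] at this
  · show 2 * ((Fin.last N : Fin (N + 1)) : ℕ) = 2 * N
    rw [Fin.val_last]
  · rw [Nat.card_congr (UG.equiv (Vx n M) N), Nat.card_sum, Nat.card_sum, Nat.card_prod,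
      Nat.card_prod, Nat.card_prod, Nat.card_prod, Nat.card_prod, Nat.card_prod, Nat.card_fin,
      Nat.card_fin, hV]
    ring_nf
    nlinarith [Nat.zero_le (N ^ 3), Nat.zero_le (N ^ 2), Nat.zero_le N]

end H541R2.SC
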